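import Pool.Agent.Lib.MP_c05127_co.AS.Asm3

/-!
PROJECT AS (MP_c05127_co), module Cor3: the corollary of `S_Main3` for the sizes of Q1 (helper95).
-/

set_option autoImplicit false

open Finset

namespace Pool.Agent.Lib.MP_c05127_co.AS

open Pool.Agent.Lib.MP_c05127_co.Brief

private theorem Cor3_num (k : ℕ) (C : ℝ) (hC : 0 < C) (n r : ℕ) (hr : 1 ≤ r)
    (hn : n = (k + 1) * (r - 1) + 1) :
    ∃ r' : ℕ, ((∃ e, r' = 2 ^ e ∧ (k + 1) * (r' - 1) + 1 ≤ n) ∨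
        (1 ≤ r' ∧ (r' : ℝ) ≤ n / (k + 1) - C * (n : ℝ) ^ (4 / 5 : ℝ))) ∧
      (r : ℝ) - (4 + 2 * C * ((k : ℝ) + 1) ^ (4 / 5 : ℝ)) * (r : ℝ) ^ (4 / 5 : ℝ) ≤ r' ∧
      r ≤ 2 * r' := by
  have hk : (0 : ℝ) < (k : ℝ) + 1 := by positivity
  obtain ⟨q, rfl⟩ : ∃ q, r = q + 1 := ⟨r - 1, by omega⟩
  have hn' : (n : ℝ) = ((k : ℝ) + 1) * q + 1 := by
    rw [hn]
    push_cast [Nat.add_sub_cancel]
    ring
  have h1 : (q : ℝ) ≤ n / (k + 1) := by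
    rw [le_div_iff₀ hk, hn']
    nlinarith
  have h2 : (n : ℝ) ≤ ((k : ℝ) + 1) * ((q : ℝ) + 1) := by
    rw [hn']
    have : (0 : ℝ) ≤ (k : ℝ) := by positivity
    nlinarith
  have hn0 : (0 : ℝ) ≤ n := by positivity
  have h3 : (n : ℝ) ^ (4 / 5 : ℝ) ≤
      ((k : ℝ) + 1) ^ (4 / 5 : ℝ) * ((q : ℝ) + 1) ^ (4 / 5 : ℝ) := by
    rw [← Real.mul_rpow hk.le (by positivity)]
    exact Real.rpow_le_rpow hn0 h2 (by norm_num)
  have h4 : (1 : ℝ) ≤ ((q : ℝ) + 1) ^ (4 / 5 : ℝ) :=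
    Real.one_le_rpow (by have : (0 : ℝ) ≤ q := by positivity
                         linarith) (by norm_num)
  have h7 : C * (n : ℝ) ^ (4 / 5 : ℝ) ≤
      C * (((k : ℝ) + 1) ^ (4 / 5 : ℝ) * ((q : ℝ) + 1) ^ (4 / 5 : ℝ)) :=
    mul_le_mul_of_nonneg_left h3 hC.le
  set v : ℝ := n / (k + 1) - C * (n : ℝ) ^ (4 / 5 : ℝ) with hv
  have h8 : 0 ≤ C * (((k : ℝ) + 1) ^ (4 / 5 : ℝ) * ((q : ℝ) + 1) ^ (4 / 5 : ℝ)) := by positivity
  by_cases hc : ((q : ℝ) + 1) / 2 + 1 ≤ v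
  · -- the large case
    have hq0 : (0 : ℝ) ≤ q := by positivity
    have hv1 : (1 : ℝ) ≤ v := by linarith
    have h5 : v - 1 < (⌊v⌋₊ : ℝ) := Nat.sub_one_lt_floor v
    have h6 : (⌊v⌋₊ : ℝ) ≤ v := Nat.floor_le (by linarith)
    refine ⟨⌊v⌋₊, Or.inr ⟨(Nat.one_le_floor_iff v).2 hv1, h6⟩, ?_, ?_⟩
    · push_cast
      nlinarith
    · have h9 : ((q : ℝ) + 1) / 2 < (⌊v⌋₊ : ℝ) := by linarith
      have h10 : ((q : ℝ) + 1) < 2 * (⌊v⌋₊ : ℝ) := by linarith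
      have h11 : q + 1 < 2 * ⌊v⌋₊ := by exact_mod_cast h10
      exact h11.le
  · rw [not_le] at hc
    have hle : 2 ^ Nat.log 2 (q + 1) ≤ q + 1 := Nat.pow_log_le_self 2 (by omega)
    have hlt : q + 1 < 2 ^ (Nat.log 2 (q + 1) + 1) := Nat.lt_pow_succ_log_self (by norm_num) _
    refine ⟨2 ^ Nat.log 2 (q + 1), Or.inl ⟨_, rfl, ?_⟩, ?_, ?_⟩
    · rw [hn]
      have h9 : 2 ^ Nat.log 2 (q + 1) - 1 ≤ q + 1 - 1 := by omega
      have h10 := Nat.mul_le_mul_left (k + 1) h9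
      omega
    · have h9 : (0 : ℝ) ≤ ((2 ^ Nat.log 2 (q + 1) : ℕ) : ℝ) := by positivity
      have h10 : (q : ℝ) + 1 ≤
          (4 + 2 * C * ((k : ℝ) + 1) ^ (4 / 5 : ℝ)) * ((q : ℝ) + 1) ^ (4 / 5 : ℝ) := by
        nlinarith
      push_cast at h9 ⊢
      linarith
    · rw [pow_succ] at hlt
      omega

open Classical in
/-- The corollary for the sizes of Q1. -/
def S_Cor3 : Prop := ∀ d k : ℕ, 1 ≤ k → k ≤ d → ∃ C : ℝ, 0 < C ∧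
  ∀ (r : Fin (d - k + 1) → ℕ) (A : Fin (d - k + 1) → Finset (Aff d)),
    (∀ i, 1 ≤ r i) → (∀ i, IsArr (A i)) → (∀ i, (A i).card = (k + 1) * (r i - 1) + 1) →
    ((∀ u : E d, u ≠ 0 → ∃ i, 2 * ((A i).filter fun h => In (dir h) u).card < r i) ∨
      PP.GenPosK A) →
    ∃ r' : Fin (d - k + 1) → ℕ, (∀ i, (r i : ℝ) - C * (r i : ℝ) ^ (4 / 5 : ℝ) ≤ r' i) ∧
      PP.ConclK k r' A

theorem tCor3 (hM : S_Main3) : S_Cor3 := by
  classical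
  intro d k hk hkd
  obtain ⟨C, hC, hm⟩ := hM d k hk hkd
  refine ⟨4 + 2 * C * ((k : ℝ) + 1) ^ (4 / 5 : ℝ), by positivity, ?_⟩
  intro r A hr hA hcard hgp
  choose r' h1 h2 h3 using fun i => Cor3_num k C hC (A i).card (r i) (hr i) (hcard i)
  refine ⟨r', h2, ?_⟩
  refine hm r' A hA h1 ?_
  rcases hgp with hg | hg
  · refine Or.inl fun u hu => ?_
    obtain ⟨i, hi⟩ := hg u hu
    refine ⟨i, ?_⟩
    have h4 : 2 * ((A i).filter fun h => In (dir h) u).card < 2 * r' i := lt_of_lt_of_le hi (h3 i)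
    have h5 : ((A i).filter fun h => In (dir h) u).card < r' i := by omega
    convert h5
  · exact Or.inr hg

end Pool.Agent.Lib.MP_c05127_co.AS
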