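import Pool.Agent.Lib.MP_c05127_co.AS.Spec
import Pool.Agent.Lib.MP_c05127_co.Hyp

/-! MP_c05127_co, project AS, module Cp: the depth in terms of a system of inequalities. -/

set_option autoImplicit false

open Finset

namespace Pool.Agent.Lib.MP_c05127_co.AS

open Pool.Agent.Lib.MP_c05127_co.Brief

private theorem Cp_inner {d : ℕ} (a v : E d) : inner ℝ a v = ∑ i, a i * v i := by
  simp [PiLp.inner_apply, mul_comm]

private theorem Cp_alg (α β : ℝ) : ((∃ t : ℝ, 0 ≤ t ∧ t * β = α) ∨ β = 0) ↔ 0 ≤ α * β := by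
  constructor
  · rintro (⟨t, ht, rfl⟩ | h)
    · rw [mul_assoc]
      exact mul_nonneg ht (mul_self_nonneg β)
    · rw [h, mul_zero]
  · intro h
    by_cases hb : β = 0
    · exact Or.inr hb
    · refine Or.inl ⟨α / β, ?_, div_mul_cancel₀ α hb⟩
      have h1 : α / β = α * β / (β * β) := by
        rw [mul_div_mul_right _ _ hb]
      rw [h1]
      exact div_nonneg h (mul_self_nonneg β)

open Classical in
private theorem Cp_rd {d : ℕ} (S : Finset (Aff d)) (q : E d) (L : Sub d)
    (hne : ∃ v, In L v ∧ v ≠ 0) :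
    1 ≤ RD S q L ↔ ∀ v, In L v → v ≠ 0 → ∃ h ∈ S, Hits h q v := by
  unfold RD
  constructor
  · intro h1 v hv hv0
    have h2 := Nat.sInf_le (show _ ∈ {n | ∃ v, In L v ∧ v ≠ 0 ∧
      n = (S.filter (fun h => Hits h q v)).card} from ⟨v, hv, hv0, rfl⟩)
    obtain ⟨h, hh⟩ := Finset.card_pos.mp (lt_of_lt_of_le Nat.one_pos (h1.trans h2))
    exact ⟨h, (Finset.mem_filter.mp hh).1, (Finset.mem_filter.mp hh).2⟩
  · intro H
    obtain ⟨v0, hv0, hv00⟩ := hne
    have hmem := Nat.sInf_mem (s := {n | ∃ v, In L v ∧ v ≠ 0 ∧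
      n = (S.filter (fun h => Hits h q v)).card}) ⟨_, v0, hv0, hv00, rfl⟩
    obtain ⟨v, hv, hv1, he⟩ := hmem
    obtain ⟨h, hS, hh⟩ := H v hv hv1
    have h3 : 1 ≤ (S.filter (fun h => Hits h q v)).card :=
      Finset.card_pos.mpr ⟨h, Finset.mem_filter.mpr ⟨hS, hh⟩⟩
    exact le_of_le_of_eq h3 he.symm

private theorem Cp_sum (hP : S_Pol) {σ : Type} [Fintype σ] [DecidableEq σ] {ι : Type} (m : ℕ)
    (s : Finset ι) (f : ι → (σ → ℝ) → ℝ) (hf : ∀ i, Pol m (f i)) :
    Pol m (fun x => ∑ i ∈ s, f i x) := by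
  classical
  obtain ⟨pc, pv, pm, pa, ps, pmul⟩ := hP σ
  induction s using Finset.induction_on with
  | empty => simpa using pc m 0
  | insert i s hi ih =>
    have h1 := pa m (f i) (fun x => ∑ i ∈ s, f i x) (hf i) ih
    have h2 : (fun x => ∑ j ∈ insert i s, f j x) = fun x => f i x + ∑ j ∈ s, f j x := by
      funext x
      rw [Finset.sum_insert hi]
    rw [h2]
    exact h1

theorem tCp : S_Cp := by
  intro hP d k A hk hA
  obtain ⟨pc, pv, pm, pa, ps, pmul⟩ := hP (Sg d k)
  have hn : ∀ h : {h // h ∈ A}, ∃ a : E d, (∀ x, On h.1 x ↔ inner ℝ a x = (1 : ℝ)) ∧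
      ∀ x, In (dir h.1) x ↔ inner ℝ a x = (0 : ℝ) := by
    intro h
    obtain ⟨h1, h2, h3⟩ := hA h.1 h.2
    obtain ⟨a, _, ha1, ha2⟩ := hypStmt d h.1 h1 h2 h3
    exact ⟨a, ha1, ha2⟩
  choose a ha1 ha2 using hn
  refine ⟨fun h j x => (1 + (-1) * ∑ i, ∑ l, a h i * (x (Sum.inl (i, l)) * x (Sum.inr l))) *
    ∑ i, a h i * x (Sum.inl (i, j)), ?_, ?_⟩
  · intro h j
    have h1 : Pol (σ := Sg d k) 2 (fun x => ∑ i, ∑ l, a h i * (x (Sum.inl (i, l)) *
        x (Sum.inr l))) := by
      apply Cp_sum hP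
      intro i
      apply Cp_sum hP
      intro l
      exact ps 2 (a h i) _ (pmul 1 1 _ _ (pv 1 _ le_rfl) (pv 1 _ le_rfl))
    have h2 : Pol (σ := Sg d k) 1 (fun x => ∑ i, a h i * x (Sum.inl (i, j))) := by
      apply Cp_sum hP
      intro i
      exact ps 1 (a h i) _ (pv 1 _ le_rfl)
    exact pmul 2 1 _ _ (pa 2 _ _ (pc 2 1) (ps 2 (-1) _ h1)) h2
  · intro L q hL hq
    have hL' : Module.finrank ℝ L = k := hL
    let b : Module.Basis (Fin k) ℝ L := Module.finBasisOfFinrankEq ℝ L hL'
    have hqL : q ∈ L := hq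
    refine ⟨fun s => Sum.elim (fun p : Fin d × Fin k => (b p.2 : E d) p.1)
      (fun l => b.repr ⟨q, hqL⟩ l) s, ?_⟩
    intro S
    -- coordinates of a vector of L
    have hrep : ∀ w : L, ∀ i : Fin d, (w : E d) i = ∑ l, (b.repr w l) * (b l : E d) i := by
      intro w i
      have h1 := congrArg (fun u : L => (u : E d) i) (b.sum_repr w)
      simp only [Submodule.coe_sum, Submodule.coe_smul] at h1
      rw [← h1]
      simp [Finset.sum_apply]
    have hval : ∀ (h : {h // h ∈ A}) (w : L),
        ∑ j, ((1 + (-1) * ∑ i, ∑ l, a h i * ((b l : E d) i * b.repr ⟨q, hqL⟩ l)) *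
          ∑ i, a h i * (b j : E d) i) * (b.repr w j) =
        (1 - inner ℝ (a h) q) * inner ℝ (a h) (w : E d) := by
      intro h w
      have e1 : inner ℝ (a h) q = ∑ i, ∑ l, a h i * ((b l : E d) i * b.repr ⟨q, hqL⟩ l) := by
        rw [Cp_inner]
        apply Finset.sum_congr rfl
        intro i _
        have := hrep ⟨q, hqL⟩ i
        simp only [] at this
        rw [this, Finset.mul_sum]
        apply Finset.sum_congr rfl
        intro l _
        ring
      have e2 : inner ℝ (a h) (w : E d) = ∑ j, (∑ i, a h i * (b j : E d) i) * b.repr w j := by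
        rw [Cp_inner]
        have : ∀ i, a h i * (w : E d) i = ∑ j, a h i * (b j : E d) i * b.repr w j := by
          intro i
          rw [hrep w i, Finset.mul_sum]
          apply Finset.sum_congr rfl
          intro l _
          ring
        rw [Finset.sum_congr rfl (fun i _ => this i), Finset.sum_comm]
        apply Finset.sum_congr rfl
        intro j _
        rw [Finset.sum_mul]
      rw [e1, e2]
      refine Eq.trans ?_ (Finset.mul_sum _ _ _).symm
      apply Finset.sum_congr rfl
      intro j _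
      ring
    have hhit : ∀ (h : {h // h ∈ A}) (v : E d), Hits h.1 q v ↔
        0 ≤ (1 - inner ℝ (a h) q) * inner ℝ (a h) v := by
      intro h v
      rw [← Cp_alg]
      unfold Hits
      apply or_congr
      · apply exists_congr
        intro t
        apply and_congr Iff.rfl
        refine Iff.trans (ha1 h (pt q v t)) ?_
        have e : pt q v t = q + t • v := rfl
        rw [e, inner_add_right, inner_smul_right]
        constructor
        · intro h1; linarith
        · intro h1; linarith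
      · exact ha2 h v
    have hne : ∃ v, In L v ∧ v ≠ 0 := by
      refine ⟨(b ⟨0, hk⟩ : E d), (b ⟨0, hk⟩).2, ?_⟩
      intro h0
      exact b.ne_zero ⟨0, hk⟩ (Subtype.ext h0)
    rw [Cp_rd _ _ _ hne]
    constructor
    · rintro H ⟨z, hz⟩
      simp only [Sum.elim_inl, Sum.elim_inr] at hz
      set w : L := ∑ j, z j • b j with hw
      have hzr : ∀ j, b.repr w j = z j := by
        intro j
        rw [hw, map_sum, Finset.sum_apply']
        simp [Finsupp.single_apply]
      have key : ∀ h ∈ S, (1 - inner ℝ (a h) q) * inner ℝ (a h) (w : E d) < 0 := by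
        intro h hh
        rw [← hval h w]
        refine lt_of_eq_of_lt ?_ (hz h hh)
        apply Finset.sum_congr rfl
        intro j _
        rw [hzr]
      by_cases hw0 : (w : E d) = 0
      · obtain ⟨v0, hv0, hv00⟩ := hne
        obtain ⟨h', hh', _⟩ := H v0 hv0 hv00
        obtain ⟨h, hS, _⟩ := Finset.mem_map.mp hh'
        have := key h hS
        rw [hw0, inner_zero_right, mul_zero] at this
        exact lt_irrefl _ this
      · obtain ⟨h', hh', hhit'⟩ := H w w.2 hw0
        obtain ⟨h, hS, rfl⟩ := Finset.mem_map.mp hh'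
        have h1 := key h hS
        have h2 := (hhit h w).mp hhit'
        linarith
    · intro hF v hv hv0
      by_contra hcon
      apply hF
      refine ⟨fun j => b.repr ⟨v, hv⟩ j, ?_⟩
      intro h hS
      simp only [Sum.elim_inl, Sum.elim_inr]
      rw [hval h ⟨v, hv⟩]
      by_contra hge
      rw [not_lt] at hge
      exact hcon ⟨h.1, Finset.mem_map.mpr ⟨h, hS, rfl⟩, (hhit h v).mpr hge⟩

end Pool.Agent.Lib.MP_c05127_co.AS
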