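import Pool.Agent.Lib.MP_c05127_co.AS.Spec

/-!
PROJECT AS (MP_c05127_co), module FM: one step of Fourier-Motzkin elimination (helper95).
-/

set_option autoImplicit false

open Finset

namespace Pool.Agent.Lib.MP_c05127_co.AS

open Pool.Agent.Lib.MP_c05127_co.Brief

private lemma FM_between (Lo Up : Finset ℝ) (h : ∀ l ∈ Lo, ∀ u ∈ Up, l < u) :
    ∃ ζ : ℝ, (∀ l ∈ Lo, l < ζ) ∧ ∀ u ∈ Up, ζ < u := by
  rcases Lo.eq_empty_or_nonempty with hL | hL
  · subst hL
    rcases Up.eq_empty_or_nonempty with hU | hU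
    · subst hU
      exact ⟨0, by simp, by simp⟩
    · refine ⟨Up.min' hU - 1, by simp, fun u hu => ?_⟩
      have := Up.min'_le u hu
      linarith
  · rcases Up.eq_empty_or_nonempty with hU | hU
    · subst hU
      refine ⟨Lo.max' hL + 1, fun l hl => ?_, by simp⟩
      have := Lo.le_max' l hl
      linarith
    · have h0 := h _ (Lo.max'_mem hL) _ (Up.min'_mem hU)
      refine ⟨(Lo.max' hL + Up.min' hU) / 2, fun l hl => ?_, fun u hu => ?_⟩
      · have := Lo.le_max' l hl
        linarith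
      · have := Up.min'_le u hu
        linarith

private lemma FM_pair {ι : Type} {k : ℕ} (F : ι → Fin (k + 1) → ℝ) (p : ι × ι) (z : Fin k → ℝ) :
    ∑ j, der F (Sum.inr p) j * z j =
      F p.1 0 * (∑ j, F p.2 j.succ * z j) - F p.2 0 * ∑ j, F p.1 j.succ * z j := by
  rw [mul_sum, mul_sum, ← sum_sub_distrib]
  refine sum_congr rfl fun j _ => ?_
  simp only [der]
  ring

/-- **FM.** -/
theorem tFM : S_FM := by
  classical
  intro ι k F S
  constructor
  · rintro ⟨z, hz⟩
    refine ⟨fun j => z j.succ, ?_⟩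
    intro h hh
    rw [mem_union, mem_image, mem_image] at hh
    rcases hh with ⟨a, ha, rfl⟩ | ⟨p, hp, rfl⟩
    · rw [mem_filter] at ha
      have := hz a ha.1
      rw [Fin.sum_univ_succ, ha.2, zero_mul, zero_add] at this
      exact this
    · rw [mem_filter, mem_product] at hp
      have h1 := hz p.1 hp.1.1
      have h2 := hz p.2 hp.1.2
      rw [Fin.sum_univ_succ] at h1 h2
      rw [FM_pair]
      nlinarith [mul_neg_of_pos_of_neg hp.2.1 h2, mul_neg_of_pos_of_neg (neg_pos.2 hp.2.2) h1]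
  · rintro ⟨z, hz⟩
    set g : ι → ℝ := fun h => ∑ j, F h j.succ * z j with hg
    obtain ⟨ζ, hlo, hup⟩ := FM_between
      ((S.filter fun h => F h 0 < 0).image fun h => g h / (-F h 0))
      ((S.filter fun h => 0 < F h 0).image fun h => -g h / F h 0) (by
        intro l hl u hu
        rw [mem_image] at hl hu
        obtain ⟨b, hb, rfl⟩ := hl
        obtain ⟨a, ha, rfl⟩ := hu
        rw [mem_filter] at ha hb
        have h1 := hz (Sum.inr (a, b)) (mem_union_right _ (mem_image_of_mem _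
          (mem_filter.2 ⟨mem_product.2 ⟨ha.1, hb.1⟩, ha.2, hb.2⟩)))
        rw [FM_pair] at h1
        have h2 : 0 < -F b 0 := neg_pos.2 hb.2
        rw [div_lt_div_iff₀ h2 ha.2]
        change F a 0 * g b - F b 0 * g a < 0 at h1
        nlinarith)
    refine ⟨Fin.cons ζ z, ?_⟩
    intro h hh
    rw [Fin.sum_univ_succ]
    simp only [Fin.cons_zero, Fin.cons_succ]
    change F h 0 * ζ + g h < 0
    rcases lt_trichotomy (F h 0) 0 with h0 | h0 | h0
    · have h1 := hlo _ (mem_image_of_mem _ (mem_filter.2 ⟨hh, h0⟩))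
      rw [div_lt_iff₀ (neg_pos.2 h0)] at h1
      nlinarith
    · rw [h0, zero_mul, zero_add]
      exact hz (Sum.inl h) (mem_union_left _ (mem_image_of_mem _ (mem_filter.2 ⟨hh, h0⟩)))
    · have h1 := hup _ (mem_image_of_mem _ (mem_filter.2 ⟨hh, h0⟩))
      rw [lt_div_iff₀ h0] at h1
      nlinarith

end Pool.Agent.Lib.MP_c05127_co.AS
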