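import Pool.Agent.Lib.MP_c05127_co.AS.Spec

/-!
PROJECT AS, module Mc: McDiarmid's inequality (weak constant).
-/

set_option autoImplicit false

open Finset

namespace Pool.Agent.Lib.MP_c05127_co.AS

open Pool.Agent.Lib.MP_c05127_co.Brief

private lemma Mc_exp {y : ℝ} (hy : |y| ≤ 1) : Real.exp y ≤ 1 + y + y ^ 2 := by
  have h := Real.abs_exp_sub_one_sub_id_le hy
  have h' := (abs_le.mp h).2
  linarith

private lemma Mc_sum {T n : ℕ} (F : (Fin (n + 1) → Fin T) → ℝ) :
    ∑ ω, F ω = ∑ ω' : Fin n → Fin T, ∑ c, F (Fin.cons c ω') := by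
  rw [← (Fin.consEquiv fun _ : Fin (n + 1) => Fin T).sum_comp F, Fintype.sum_prod_type,
    Finset.sum_comm]
  rfl

private lemma Mc_mgf {T : ℕ} (hT : 0 < T) {lam : ℝ} (h0 : 0 ≤ lam) (h1 : lam ≤ 1) :
    ∀ (n : ℕ) (f : (Fin n → Fin T) → ℝ), (∀ ω i c, |f (Function.update ω i c) - f ω| ≤ 1) →
      ∑ ω, Real.exp (lam * (f ω - av f)) ≤ Real.exp (n * lam ^ 2) * (T : ℝ) ^ n := by
  have hT' : (0 : ℝ) < T := by exact_mod_cast hT
  intro n
  induction n with
  | zero =>
    intro f _
    have h : av f = f default := by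
      unfold av
      rw [Fintype.sum_unique]
      simp
    rw [Fintype.sum_unique, h]
    simp
  | succ n ih =>
    intro f hf
    obtain ⟨g, hg⟩ : ∃ g : (Fin n → Fin T) → ℝ, ∀ ω', g ω' = (∑ c, f (Fin.cons c ω')) / T :=
      ⟨_, fun _ => rfl⟩
    have hgd : ∀ ω i c, |g (Function.update ω i c) - g ω| ≤ 1 := by
      intro ω i c
      rw [hg, hg, ← sub_div, ← Finset.sum_sub_distrib, abs_div, abs_of_pos hT', div_le_one hT']
      calc |∑ x, (f (Fin.cons x (Function.update ω i c)) - f (Fin.cons x ω))|
          ≤ ∑ x, |f (Fin.cons x (Function.update ω i c)) - f (Fin.cons x ω)| :=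
            Finset.abs_sum_le_sum_abs _ _
        _ ≤ ∑ _x : Fin T, (1 : ℝ) := by
            refine Finset.sum_le_sum fun x _ => ?_
            rw [Fin.cons_update]
            exact hf _ _ _
        _ = T := by simp
    have hav : av g = av f := by
      unfold av
      rw [Mc_sum f]
      simp only [hg]
      rw [← Finset.sum_div, div_div]
      congr 1
      simp only [Fintype.card_fun, Fintype.card_fin]
      push_cast
      ring
    have hfg : ∀ ω' c, |f (Fin.cons c ω') - g ω'| ≤ 1 := by
      intro ω' c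
      have h : f (Fin.cons c ω') - g ω' =
          (∑ x, (f (Fin.cons c ω') - f (Fin.cons x ω'))) / T := by
        rw [hg, Finset.sum_sub_distrib, Finset.sum_const, Finset.card_univ, Fintype.card_fin,
          nsmul_eq_mul]
        field_simp
      rw [h, abs_div, abs_of_pos hT', div_le_one hT']
      calc |∑ x, (f (Fin.cons c ω') - f (Fin.cons x ω'))|
          ≤ ∑ x, |f (Fin.cons c ω') - f (Fin.cons x ω')| := Finset.abs_sum_le_sum_abs _ _
        _ ≤ ∑ _x : Fin T, (1 : ℝ) := by
            refine Finset.sum_le_sum fun x _ => ?_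
            have := hf (Fin.cons x ω' : Fin (n + 1) → Fin T) 0 c
            rwa [Fin.update_cons_zero] at this
        _ = T := by simp
    have hin : ∀ ω', ∑ c, Real.exp (lam * (f (Fin.cons c ω') - g ω')) ≤
        T * Real.exp (lam ^ 2) := by
      intro ω'
      have hz : ∑ c, lam * (f (Fin.cons c ω') - g ω') = 0 := by
        rw [← Finset.mul_sum, Finset.sum_sub_distrib, Finset.sum_const, Finset.card_univ,
          Fintype.card_fin, nsmul_eq_mul, hg]
        field_simp
        simp
      calc ∑ c, Real.exp (lam * (f (Fin.cons c ω') - g ω'))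
          ≤ ∑ c, ((1 + lam ^ 2) + lam * (f (Fin.cons c ω') - g ω')) := by
            refine Finset.sum_le_sum fun c _ => ?_
            have ha := hfg ω' c
            have hb : |lam * (f (Fin.cons c ω') - g ω')| ≤ lam := by
              rw [abs_mul, abs_of_nonneg h0]
              calc lam * |f (Fin.cons c ω') - g ω'| ≤ lam * 1 :=
                    mul_le_mul_of_nonneg_left ha h0
                _ = lam := mul_one _
            have hc := Mc_exp (hb.trans h1)
            have hd : (lam * (f (Fin.cons c ω') - g ω')) ^ 2 ≤ lam ^ 2 := by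
              rw [← sq_abs (lam * (f (Fin.cons c ω') - g ω'))]
              exact pow_le_pow_left₀ (abs_nonneg _) hb 2
            linarith
        _ = T * (1 + lam ^ 2) := by
            rw [Finset.sum_add_distrib, hz, Finset.sum_const, Finset.card_univ, Fintype.card_fin,
              nsmul_eq_mul, add_zero]
        _ ≤ T * Real.exp (lam ^ 2) := by
            refine mul_le_mul_of_nonneg_left ?_ hT'.le
            have := Real.add_one_le_exp (lam ^ 2)
            linarith
    have hih := ih g hgd
    calc ∑ ω, Real.exp (lam * (f ω - av f))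
        = ∑ ω', Real.exp (lam * (g ω' - av g)) *
            ∑ c, Real.exp (lam * (f (Fin.cons c ω') - g ω')) := by
          rw [Mc_sum]
          refine Finset.sum_congr rfl fun ω' _ => ?_
          rw [Finset.mul_sum]
          refine Finset.sum_congr rfl fun c _ => ?_
          rw [← Real.exp_add, hav]
          congr 1
          ring
      _ ≤ ∑ ω', Real.exp (lam * (g ω' - av g)) * (T * Real.exp (lam ^ 2)) :=
          Finset.sum_le_sum fun ω' _ => mul_le_mul_of_nonneg_left (hin ω') (Real.exp_pos _).le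
      _ = (∑ ω', Real.exp (lam * (g ω' - av g))) * (T * Real.exp (lam ^ 2)) := by
          rw [Finset.sum_mul]
      _ ≤ (Real.exp (n * lam ^ 2) * (T : ℝ) ^ n) * (T * Real.exp (lam ^ 2)) :=
          mul_le_mul_of_nonneg_right hih (mul_nonneg hT'.le (Real.exp_pos _).le)
      _ = Real.exp (((n + 1 : ℕ) : ℝ) * lam ^ 2) * (T : ℝ) ^ (n + 1) := by
          push_cast
          rw [add_mul, one_mul, Real.exp_add, pow_succ]
          ring

private lemma Mc_mgf' {ι : Type} [Fintype ι] [DecidableEq ι] {T : ℕ} (hT : 0 < T) {lam : ℝ}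
    (h0 : 0 ≤ lam) (h1 : lam ≤ 1) (f : (ι → Fin T) → ℝ)
    (hf : ∀ ω i c, |f (Function.update ω i c) - f ω| ≤ 1) :
    ∑ ω, Real.exp (lam * (f ω - av f)) ≤
      Real.exp (Fintype.card ι * lam ^ 2) * (T : ℝ) ^ Fintype.card ι := by
  obtain ⟨e⟩ : Nonempty (ι ≃ Fin (Fintype.card ι)) := ⟨Fintype.equivFin ι⟩
  have h := Mc_mgf hT h0 h1 (Fintype.card ι) (fun ω' => f (ω' ∘ e)) (by
    intro ω i c
    rw [Function.update_comp_equiv]
    exact hf _ _ _)
  have hs : ∀ F : (ι → Fin T) → ℝ,
      ∑ ω' : Fin (Fintype.card ι) → Fin T, F (ω' ∘ e) = ∑ ω, F ω := by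
    intro F
    exact (Equiv.arrowCongr e.symm (Equiv.refl (Fin T))).sum_comp F
  have hav : av (fun ω' : Fin (Fintype.card ι) → Fin T => f (ω' ∘ e)) = av f := by
    unfold av
    rw [hs f]
    simp
  rw [hav] at h
  rw [hs (fun ω => Real.exp (lam * (f ω - av f)))] at h
  exact h

theorem tMc : S_Mc := by
  intro ι _ _ T hT f hf t ht0 ht
  rcases Nat.eq_zero_or_pos (Fintype.card ι) with hn | hn
  · rw [hn] at ht ⊢
    have : t = 0 := by
      have : t ≤ 0 := by simpa using ht
      linarith
    subst this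
    simp only [Nat.cast_zero, mul_zero, div_zero, neg_zero, Real.exp_zero, one_mul]
    exact_mod_cast Finset.card_le_univ _
  · have hn' : (0 : ℝ) < Fintype.card ι := by exact_mod_cast hn
    obtain ⟨lam, hlam⟩ : ∃ lam : ℝ, lam = t / (2 * Fintype.card ι) := ⟨_, rfl⟩
    have h0 : 0 ≤ lam := by rw [hlam]; positivity
    have h1 : lam ≤ 1 := by
      rw [hlam, div_le_one (by positivity)]
      exact ht
    have h := Mc_mgf' hT h0 h1 f hf
    have hm : ((univ.filter fun ω => av f + t ≤ f ω).card : ℝ) * Real.exp (lam * t) ≤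
        ∑ ω, Real.exp (lam * (f ω - av f)) := by
      calc ((univ.filter fun ω => av f + t ≤ f ω).card : ℝ) * Real.exp (lam * t)
          = ∑ _ω ∈ univ.filter (fun ω => av f + t ≤ f ω), Real.exp (lam * t) := by
            rw [Finset.sum_const, nsmul_eq_mul]
        _ ≤ ∑ ω ∈ univ.filter (fun ω => av f + t ≤ f ω), Real.exp (lam * (f ω - av f)) := by
            refine Finset.sum_le_sum fun ω hω => Real.exp_le_exp.mpr ?_
            have := (Finset.mem_filter.mp hω).2
            exact mul_le_mul_of_nonneg_left (by linarith) h0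
        _ ≤ ∑ ω, Real.exp (lam * (f ω - av f)) :=
            Finset.sum_le_sum_of_subset_of_nonneg (Finset.filter_subset _ _)
              fun _ _ _ => (Real.exp_pos _).le
    have hexp : Real.exp (Fintype.card ι * lam ^ 2) =
        Real.exp (-(t ^ 2 / (4 * Fintype.card ι))) * Real.exp (lam * t) := by
      rw [← Real.exp_add]
      congr 1
      rw [hlam]
      field_simp
      ring
    have hc : ((Fintype.card (ι → Fin T) : ℕ) : ℝ) = (T : ℝ) ^ Fintype.card ι := by
      rw [Fintype.card_fun, Fintype.card_fin]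
      push_cast
      rfl
    rw [hc]
    have h2 := hm.trans h
    rw [hexp] at h2
    have h3 : ((univ.filter fun ω => av f + t ≤ f ω).card : ℝ) * Real.exp (lam * t) ≤
        (Real.exp (-(t ^ 2 / (4 * Fintype.card ι))) * (T : ℝ) ^ Fintype.card ι) *
          Real.exp (lam * t) := by
      calc _ ≤ _ := h2
        _ = _ := by ring
    exact le_of_mul_le_mul_right h3 (Real.exp_pos _)

end Pool.Agent.Lib.MP_c05127_co.AS
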