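import Pool.Agent.Lib.MP_c05127_co.AS.SpecB
import Pool.Agent.Lib.MP_c05127_co.Hyp

/-! MP_c05127_co, project AS, module Nd: the number of sets of parallel members. -/

set_option autoImplicit false

open Finset

namespace Pool.Agent.Lib.MP_c05127_co.AS

open Pool.Agent.Lib.MP_c05127_co.Brief

private theorem Nd_inner {d : ℕ} (a v : E d) : inner ℝ a v = ∑ i, a i * v i := by
  simp [PiLp.inner_apply, mul_comm]

private theorem Nd_sum (hP : S_Pol) {σ : Type} [Fintype σ] [DecidableEq σ] {ι : Type} (m : ℕ)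
    (s : Finset ι) (f : ι → (σ → ℝ) → ℝ) (hf : ∀ i, Pol m (f i)) :
    Pol m (fun x => ∑ i ∈ s, f i x) := by
  classical
  obtain ⟨pc, pv, pm, pa, ps, pmul⟩ := hP σ
  induction s using Finset.induction_on with
  | empty => simpa using pc m 0
  | insert i s hi ih =>
    have h1 := pa m (f i) (fun x => ∑ i ∈ s, f i x) (hf i) ih
    have h2 : (fun x => ∑ j ∈ insert i s, f j x) = fun x => f i x + ∑ j ∈ s, f j x := by
      funext x
      rw [Finset.sum_insert hi]
    rw [h2]
    exact h1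

theorem tNd : S_Nd := by
  classical
  intro hP hVC d
  obtain ⟨pc, pv, pm, pa, ps, pmul⟩ := hP (Fin d)
  refine ⟨2 * 2 ^ d, fun A hA => ?_⟩
  have hn : ∀ h : {h // h ∈ A}, ∃ a : E d, ∀ x, In (dir h.1) x ↔ inner ℝ a x = (0 : ℝ) := by
    intro h
    obtain ⟨h1, h2, h3⟩ := hA h.1 h.2
    obtain ⟨a, _, _, ha2⟩ := hypStmt d h.1 h1 h2 h3
    exact ⟨a, ha2⟩
  choose a ha using hn
  let Q : {h // h ∈ A} → (Fin d → ℝ) → ℝ := fun h x => ∑ i, a h i * x i
  have hQ : ∀ j, Pol 1 (Q j) := fun j => Nd_sum hP 1 _ _ fun i => ps 1 (a j i) _ (pv 1 i le_rfl)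
  have hv := hVC (Fin d) 1 {h // h ∈ A} Q hQ
  set R : Set ({h // h ∈ A} → SignType) :=
    Set.range fun (x : Fin d → ℝ) (j : {h // h ∈ A}) => SignType.sign (Q j x) with hR
  have hRf : R.Finite := Set.toFinite R
  let g : ({h // h ∈ A} → SignType) → Finset (Aff d) := fun s =>
    (univ.filter fun j : {h // h ∈ A} => s j = 0).map (Function.Embedding.subtype _)
  refine ⟨hRf.toFinset.image g, ?_, ?_⟩
  · have h1 : (hRf.toFinset.image g).card ≤ R.ncard := by
      rw [Set.ncard_eq_toFinset_card R hRf]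
      exact Finset.card_image_le
    have h2 : Fintype.card {h // h ∈ A} = A.card := Fintype.card_coe A
    have h3 : (1 + 1) ^ Fintype.card (Fin d) = 2 ^ d := by rw [Fintype.card_fin]
    rw [h2, h3] at hv
    calc (hRf.toFinset.image g).card ≤ R.ncard := h1
      _ ≤ (2 * A.card + 1) ^ 2 ^ d := hv
      _ ≤ ((A.card + 2) ^ 2) ^ 2 ^ d := Nat.pow_le_pow_left (by nlinarith [Nat.zero_le A.card]) _
      _ = (A.card + 2) ^ (2 * 2 ^ d) := by rw [← pow_mul]
  · intro u
    rw [Finset.mem_image]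
    refine ⟨fun j => SignType.sign (Q j fun i => u i), ?_, ?_⟩
    · rw [Set.Finite.mem_toFinset]
      exact ⟨fun i => u i, rfl⟩
    · ext h
      rw [Finset.mem_filter]
      constructor
      · intro hh
        obtain ⟨j, hj, rfl⟩ := Finset.mem_map.mp hh
        have h0 : Q j (fun i => u i) = 0 := sign_eq_zero_iff.mp (Finset.mem_filter.mp hj).2
        exact ⟨j.2, (ha j u).mpr ((Nd_inner _ _).trans h0)⟩
      · rintro ⟨hA', hu⟩
        refine Finset.mem_map.mpr ⟨⟨h, hA'⟩, Finset.mem_filter.mpr ⟨Finset.mem_univ _, ?_⟩, rfl⟩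
        exact sign_eq_zero_iff.mpr ((Nd_inner _ _).symm.trans ((ha ⟨h, hA'⟩ u).mp hu))

end Pool.Agent.Lib.MP_c05127_co.AS
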