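import Pool.Agent.Lib.MP_c05127_co.AS.Spec

/-!
# PROJECT AS, module Nu: packing numbers
-/

set_option autoImplicit false

open Finset

namespace Pool.Agent.Lib.MP_c05127_co.AS

open Pool.Agent.Lib.MP_c05127_co.Brief

private theorem Nu_zero {α : Type} (cap : Finset α → Prop) (B : Finset α) : Pk cap 0 B :=
  ⟨fun _ => ∅, fun j => j.elim0, fun j => j.elim0, fun j => j.elim0⟩

private theorem Nu_down {α : Type} (cap : Finset α → Prop) {r r' : ℕ} (B : Finset α) (hr : r' ≤ r)
    (h : Pk cap r B) : Pk cap r' B := by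
  obtain ⟨P, h1, h2, h3⟩ := h
  refine ⟨fun j => P (Fin.castLE hr j), fun j j' hne => h1 _ _ ?_, fun j => h2 _, fun j => h3 _⟩
  intro he
  exact hne (Fin.castLE_injective hr he)

private theorem Nu_sub {α : Type} (cap : Finset α → Prop) {r : ℕ} {B B' : Finset α} (hB : B ⊆ B')
    (h : Pk cap r B) : Pk cap r B' := by
  obtain ⟨P, h1, h2, h3⟩ := h
  exact ⟨P, h1, fun j => (h2 j).trans hB, h3⟩

private theorem Nu_card {α : Type} (cap : Finset α → Prop) (h0 : ¬ cap ∅) {r : ℕ} {B : Finset α}
    (h : Pk cap r B) : r ≤ B.card := by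
  obtain ⟨P, h1, h2, h3⟩ := h
  have hne : ∀ j, ∃ x, x ∈ P j := by
    intro j
    by_contra hc
    have he : P j = ∅ := by
      rw [Finset.eq_empty_iff_forall_notMem]
      intro x hx
      exact hc ⟨x, hx⟩
    apply h0
    rw [← he]
    exact h3 j
  choose x hx using hne
  have hinj : Function.Injective x := by
    intro j j' he
    by_contra hjj
    have hd := h1 j j' hjj
    rw [Finset.disjoint_left] at hd
    apply hd (hx j)
    rw [he]
    exact hx j'
  have := Finset.card_le_card_of_injOn (s := (univ : Finset (Fin r))) (t := B) x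
    (fun j _ => h2 j (hx j)) (hinj.injOn)
  simpa using this

private theorem Nu_iff {α : Type} (cap : Finset α → Prop) (h0 : ¬ cap ∅) (r : ℕ) (B : Finset α) :
    r ≤ nu cap B ↔ Pk cap r B := by
  classical
  constructor
  · intro h
    apply Nu_down cap B h
    unfold nu
    exact Nat.findGreatest_spec (P := fun r => Pk cap r B) (Nat.zero_le _) (Nu_zero cap B)
  · intro h
    unfold nu
    exact Nat.le_findGreatest (Nu_card cap h0 h) h

theorem tNu : S_Nu := by
  intro α _ cap h0
  refine ⟨fun r B => Nu_iff cap h0 r B, ?_, ?_, ?_, ?_⟩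
  · intro B B' hB
    rw [Nu_iff cap h0]
    exact Nu_sub cap hB ((Nu_iff cap h0 _ _).1 le_rfl)
  · intro B h
    rcases Nat.eq_zero_or_pos (nu cap (insert h B)) with hz | hz
    · omega
    obtain ⟨r, hr⟩ : ∃ r, nu cap (insert h B) = r + 1 := ⟨nu cap (insert h B) - 1, by omega⟩
    rw [hr]
    have hP : Pk cap (r + 1) (insert h B) := by
      rw [← hr]
      exact (Nu_iff cap h0 _ _).1 le_rfl
    obtain ⟨P, h1, h2, h3⟩ := hP
    have hj : ∃ j0 : Fin (r + 1), ∀ j, j ≠ j0 → h ∉ P j := by
      by_cases hex : ∃ j0, h ∈ P j0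
      · obtain ⟨j0, hj0⟩ := hex
        refine ⟨j0, fun j hjj hmem => ?_⟩
        have hd := h1 j j0 hjj
        rw [Finset.disjoint_left] at hd
        exact hd hmem hj0
      · exact ⟨0, fun j _ hmem => hex ⟨j, hmem⟩⟩
    obtain ⟨j0, hj0⟩ := hj
    have hk : Pk cap r B := by
      refine ⟨fun j => P (j0.succAbove j), fun j j' hne => h1 _ _ ?_, fun j => ?_, fun j => h3 _⟩
      · intro he
        exact hne (Fin.succAbove_right_injective he)
      · intro x hx
        have hx2 := h2 _ hx
        rw [Finset.mem_insert] at hx2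
        rcases hx2 with hx2 | hx2
        · exfalso
          apply hj0 (j0.succAbove j) (Fin.succAbove_ne j0 j)
          rw [← hx2]
          exact hx
        · exact hx2
    have := (Nu_iff cap h0 r B).2 hk
    omega
  · intro A T B hd hB
    rw [Nu_iff cap h0]
    have hP : ∀ t, Pk cap (nu cap (B t)) (B t) := fun t => (Nu_iff cap h0 _ _).1 le_rfl
    choose P h1 h2 h3 using hP
    have hs : ∀ s s' : (Σ t : Fin T, Fin (nu cap (B t))), s ≠ s' →
        Disjoint (P s.1 s.2) (P s'.1 s'.2) := by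
      rintro ⟨t, i⟩ ⟨t', i'⟩ hne
      by_cases ht : t = t'
      · subst ht
        apply h1 t i i'
        intro he
        exact hne (by rw [he])
      · exact (hd t t' ht).mono (h2 t i) (h2 t' i')
    refine ⟨fun j => P (finSigmaFinEquiv.symm j).1 (finSigmaFinEquiv.symm j).2,
      fun j j' hne => hs _ _ ?_, fun j => (h2 _ _).trans (hB _), fun j => h3 _ _⟩
    intro he
    exact hne (finSigmaFinEquiv.symm.injective he)
  · intro A B cap' hBA hcap
    have h0' : ¬ cap' ∅ := fun h => h0 ((hcap ∅ (Finset.empty_subset A)).2 h)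
    have hiff : ∀ r, Pk cap r B ↔ Pk cap' r B := by
      intro r
      constructor
      · rintro ⟨P, h1, h2, h3⟩
        exact ⟨P, h1, h2, fun j => (hcap _ ((h2 j).trans hBA)).1 (h3 j)⟩
      · rintro ⟨P, h1, h2, h3⟩
        exact ⟨P, h1, h2, fun j => (hcap _ ((h2 j).trans hBA)).2 (h3 j)⟩
    apply le_antisymm
    · rw [Nu_iff cap' h0', ← hiff]
      exact (Nu_iff cap h0 _ _).1 le_rfl
    · rw [Nu_iff cap h0, hiff]
      exact (Nu_iff cap' h0' _ _).1 le_rfl

end Pool.Agent.Lib.MP_c05127_co.AS
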