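import Pool.Agent.Lib.MP_c05127_co.AS.Spec

/-! # PROJECT AS, module Num: numbers -/

set_option autoImplicit false

open Finset

namespace Pool.Agent.Lib.MP_c05127_co.AS

open Pool.Agent.Lib.MP_c05127_co.Brief

private theorem Num_log (C0 : ℕ) (X : ℝ) (hX : ((48 * C0 + 8 : ℝ)) ^ 2 ≤ X) :
    4 * (Real.log 4 + C0 * Real.log (X ^ 5 + 2)) ≤ X := by
  have hc : (0 : ℝ) ≤ C0 := Nat.cast_nonneg _
  have hX64 : 64 ≤ X := by nlinarith
  have hX0 : 0 < X := by linarith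
  have h1 : Real.log (X ^ 5 + 2) ≤ 12 * √X := by
    have e1 : X ^ 5 + 2 ≤ X ^ 6 := by
      have : 1 ≤ X ^ 5 := one_le_pow₀ (by linarith)
      nlinarith
    have e2 : Real.log (X ^ 5 + 2) ≤ Real.log (X ^ 6) := Real.log_le_log (by positivity) e1
    rw [Real.log_pow] at e2
    have e3 := Real.log_le_rpow_div hX0.le (show (0 : ℝ) < 1 / 2 by norm_num)
    rw [← Real.sqrt_eq_rpow] at e3
    push_cast at e2
    linarith
  have h2 : Real.log 4 ≤ 2 := by
    have e1 : Real.log 4 = 2 * Real.log 2 := by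
      rw [show (4 : ℝ) = 2 ^ 2 by norm_num, Real.log_pow]
      push_cast
      ring
    have := Real.log_two_lt_d9
    linarith
  have h3 : 48 * C0 + 8 ≤ √X := Real.le_sqrt_of_sq_le hX
  have h4 : √X * √X = X := Real.mul_self_sqrt hX0.le
  have h5 : C0 * Real.log (X ^ 5 + 2) ≤ C0 * (12 * √X) := mul_le_mul_of_nonneg_left h1 hc
  have h6 : (48 * C0 + 8) * √X ≤ √X * √X := mul_le_mul_of_nonneg_right h3 (Real.sqrt_nonneg _)
  have h7 : 1 ≤ √X := by linarith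
  nlinarith

private theorem Num_main (k n X b t T : ℝ) (hk : 0 ≤ k) (hX : 2 ≤ X) (hn : n = X ^ 5)
    (ht : t = X ^ 3) (hb1 : X ^ 4 ≤ b) (hb2 : b ≤ 2 * X ^ 4)
    (hT : n / ((k + 1) * b + t) - 1 ≤ T) :
    n / (k + 1) - 4 * X ^ 4 ≤ T * (b - t) := by
  have hX0 : 0 < X := by linarith
  have ht0 : 0 < t := by rw [ht]; positivity
  have hb0 : 0 < b := lt_of_lt_of_le (by positivity) hb1
  have hn0 : 0 < n := by rw [hn]; positivity
  have hk1 : 0 < k + 1 := by linarith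
  have hD : 0 < (k + 1) * b + t := by positivity
  have hbt : t ≤ b := by
    refine le_trans ?_ hb1
    rw [ht]
    have : 0 < X ^ 3 := by positivity
    nlinarith
  have h1 : (n / ((k + 1) * b + t) - 1) * (b - t) ≤ T * (b - t) :=
    mul_le_mul_of_nonneg_right hT (by linarith)
  refine le_trans ?_ h1
  have h2 : n / (k + 1) - 2 * X ^ 4 ≤ n / ((k + 1) * b + t) * (b - t) := by
    have e1 : n / ((k + 1) * b + t) * (b - t) = n / (k + 1) -
        n * ((k + 2) * t) / ((k + 1) * ((k + 1) * b + t)) := by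
      field_simp
      ring
    rw [e1]
    have e2 : n * ((k + 2) * t) / ((k + 1) * ((k + 1) * b + t)) ≤ 2 * X ^ 4 := by
      rw [div_le_iff₀ (by positivity)]
      have e3 : n * t = X ^ 4 * X ^ 4 := by rw [hn, ht]; ring
      have e4 : n * t ≤ X ^ 4 * b := by
        rw [e3]
        exact mul_le_mul_of_nonneg_left hb1 (by positivity)
      have e5 : k + 2 ≤ 2 * (k + 1) * (k + 1) := by nlinarith
      have e6 : (0 : ℝ) < X ^ 4 := by positivity
      have e7 : n * ((k + 2) * t) = (k + 2) * (n * t) := by ring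
      have e8 : (k + 2) * (n * t) ≤ (2 * (k + 1) * (k + 1)) * (X ^ 4 * b) :=
        mul_le_mul e5 e4 (by positivity) (by positivity)
      have e9 : 2 * X ^ 4 * ((k + 1) * ((k + 1) * b + t)) =
        (2 * (k + 1) * (k + 1)) * (X ^ 4 * b) + 2 * X ^ 4 * ((k + 1) * t) := by ring
      have e10 : 0 ≤ 2 * X ^ 4 * ((k + 1) * t) := by positivity
      rw [e7, e9]
      linarith
    linarith
  have h3 : (n / ((k + 1) * b + t) - 1) * (b - t) = n / ((k + 1) * b + t) * (b - t) - (b - t) := by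
    ring
  rw [h3]
  linarith

theorem tNum : S_Num := by
  intro k C0
  refine ⟨(48 * C0 + 8 : ℝ) ^ 2, by positivity, ?_⟩
  intro n r hr hrn
  have hc : (0 : ℝ) ≤ C0 := Nat.cast_nonneg _
  have hk : (0 : ℝ) ≤ k := Nat.cast_nonneg _
  have hr2 : (2 : ℝ) ≤ r := by exact_mod_cast hr
  obtain ⟨X, hX⟩ : ∃ X : ℝ, X = (n : ℝ) ^ (1 / 5 : ℝ) := ⟨_, rfl⟩
  obtain ⟨C, hC⟩ : ∃ C : ℝ, C = (48 * C0 + 8 : ℝ) ^ 2 := ⟨_, rfl⟩
  rw [← hC] at hrn
  have hC64 : 64 ≤ C := by rw [hC]; nlinarith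
  have hn0 : (0 : ℝ) ≤ n := Nat.cast_nonneg _
  have hX0 : 0 ≤ X := by rw [hX]; positivity
  have hX5 : X ^ 5 = n := by
    rw [hX, ← Real.rpow_natCast, ← Real.rpow_mul hn0]
    norm_num
  have hX4 : (n : ℝ) ^ (4 / 5 : ℝ) = X ^ 4 := by
    rw [hX, ← Real.rpow_natCast, ← Real.rpow_mul hn0]
    norm_num
  rw [hX4] at hrn
  have hdiv : (n : ℝ) / (k + 1) ≤ n := div_le_self hn0 (by linarith)
  have hXC : C < X := by
    have e1 : C * X ^ 4 < X * X ^ 4 := by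
      have : X * X ^ 4 = n := by rw [← hX5]; ring
      linarith
    by_contra hcon
    push Not at hcon
    have e2 : X * X ^ 4 ≤ C * X ^ 4 := mul_le_mul_of_nonneg_right hcon (by positivity)
    linarith
  have hX1 : 1 ≤ X := by linarith
  have hXp : 0 < X := by linarith
  obtain ⟨a, ha1, ha2⟩ := exists_nat_pow_near (show (1 : ℝ) ≤ X ^ 4 from one_le_pow₀ hX1)
    (show (1 : ℝ) < 2 by norm_num)
  have hb1 : X ^ 4 ≤ (2 : ℝ) ^ (a + 1) := ha2.le
  have hb2 : (2 : ℝ) ^ (a + 1) ≤ 2 * X ^ 4 := by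
    rw [pow_succ]
    linarith
  obtain ⟨T, hT⟩ : ∃ T : ℕ, T = ⌊(n : ℝ) / ((k + 1) * (2 : ℝ) ^ (a + 1) + X ^ 3)⌋₊ := ⟨_, rfl⟩
  have hD : 0 < ((k : ℝ) + 1) * (2 : ℝ) ^ (a + 1) + X ^ 3 := by positivity
  have hT1 : (n : ℝ) / ((k + 1) * (2 : ℝ) ^ (a + 1) + X ^ 3) - 1 ≤ T := by
    have := Nat.lt_floor_add_one ((n : ℝ) / ((k + 1) * (2 : ℝ) ^ (a + 1) + X ^ 3))
    rw [← hT] at this
    linarith
  have hT2 : (T : ℝ) ≤ (n : ℝ) / ((k + 1) * (2 : ℝ) ^ (a + 1) + X ^ 3) := by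
    rw [hT]
    exact Nat.floor_le (by positivity)
  have hm := Num_main k n X ((2 : ℝ) ^ (a + 1)) (X ^ 3) T hk (by linarith) hX5.symm rfl hb1 hb2 hT1
  have hX40 : 0 ≤ X ^ 4 := by positivity
  have hfin : (r : ℝ) ≤ T * ((2 : ℝ) ^ (a + 1) - X ^ 3) := by
    have : 4 * X ^ 4 ≤ C * X ^ 4 := mul_le_mul_of_nonneg_right (by linarith) hX40
    linarith
  refine ⟨T, a + 1, X ^ 3, ?_, by positivity, ?_, ?_, ?_, ?_⟩
  · rcases Nat.eq_zero_or_pos T with h | h
    · rw [h] at hfin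
      push_cast at hfin
      rw [zero_mul] at hfin
      linarith
    · exact h
  · rw [← hX5]
    have e1 : X ^ 3 * 1 ≤ X ^ 3 * X ^ 2 :=
      mul_le_mul_of_nonneg_left (one_le_pow₀ hX1) (by positivity)
    have e2 : X ^ 3 * X ^ 2 = X ^ 5 := by ring
    have e3 : 0 ≤ X ^ 5 := by positivity
    linarith
  · have e1 := Num_log C0 X (by rw [← hC]; exact hXC.le)
    rw [hX5] at e1
    have e2 : (X ^ 3) ^ 2 = n * X := by rw [← hX5]; ring
    rw [e2]
    have e3 : (n : ℝ) * (4 * (Real.log 4 + C0 * Real.log (n + 2))) ≤ n * X :=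
      mul_le_mul_of_nonneg_left e1 hn0
    linarith
  · push_cast
    exact (le_div_iff₀ hD).1 hT2
  · push_cast
    exact hfin

end Pool.Agent.Lib.MP_c05127_co.AS
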