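import Pool.Agent.Lib.MP_c05127_co.AS.Spec

set_option autoImplicit false

namespace Pool.Agent.Lib.MP_c05127_co.AS

open Finset
open Pool.Agent.Lib.MP_c05127_co.Brief

private lemma Pol_mono {σ : Type} [Fintype σ] [DecidableEq σ] (m : ℕ) (u : σ → ℕ)
    (hu : ∀ i, u i ≤ m) (a : ℝ) : Pol (σ := σ) m fun x => a * ∏ i, x i ^ (u i) := by
  classical
  refine ⟨fun e => if e = (fun i => (⟨u i, Nat.lt_succ_of_le (hu i)⟩ : Fin (m + 1))) then a else 0, ?_⟩
  intro x
  simp only [ite_mul, zero_mul]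
  rw [Finset.sum_ite_eq' Finset.univ]
  simp

private lemma Pol_add {σ : Type} [Fintype σ] [DecidableEq σ] (m : ℕ) (f g : (σ → ℝ) → ℝ)
    (hf : Pol m f) (hg : Pol m g) : Pol m fun x => f x + g x := by
  obtain ⟨c, hc⟩ := hf
  obtain ⟨c', hc'⟩ := hg
  refine ⟨fun e => c e + c' e, fun x => ?_⟩
  simp only [hc x, hc' x, add_mul, Finset.sum_add_distrib]

private lemma Pol_sum {σ : Type} [Fintype σ] [DecidableEq σ] (m : ℕ) {κ : Type} (s : Finset κ)
    (f : κ → (σ → ℝ) → ℝ) (hf : ∀ k ∈ s, Pol m (f k)) : Pol m fun x => ∑ k ∈ s, f k x := by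
  classical
  induction s using Finset.induction_on with
  | empty =>
      refine ⟨fun _ => 0, fun x => ?_⟩
      simp
  | insert k s hk ih =>
      have h1 : Pol m (f k) := hf k (Finset.mem_insert_self k s)
      have h2 : Pol m fun x => ∑ k ∈ s, f k x :=
        ih (fun j hj => hf j (Finset.mem_insert_of_mem hj))
      have h3 := Pol_add m _ _ h1 h2
      obtain ⟨c, hc⟩ := h3
      refine ⟨c, fun x => ?_⟩
      rw [← hc x]
      beta_reduce
      rw [Finset.sum_insert hk]

theorem tPol : S_Pol := by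
  intro σ _ _
  refine ⟨?_, ?_, ?_, ?_, ?_, ?_⟩
  · intro m a
    obtain ⟨c, hc⟩ := Pol_mono (σ := σ) m (fun _ => 0) (fun _ => Nat.zero_le _) a
    refine ⟨c, fun x => ?_⟩
    rw [← hc x]
    simp
  · intro m i hm
    obtain ⟨c, hc⟩ := Pol_mono (σ := σ) m (fun j => if j = i then 1 else 0)
      (fun j => by split_ifs <;> omega) 1
    refine ⟨c, fun x => ?_⟩
    rw [← hc x]
    beta_reduce
    rw [one_mul]
    rw [Finset.prod_eq_single i]
    · simp
    · intro b _ hb
      simp [hb]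
    · intro h
      exact absurd (Finset.mem_univ i) h
  · intro m m' f hmm hf
    obtain ⟨c, hc⟩ := hf
    have h := Pol_sum (σ := σ) m' (Finset.univ : Finset (σ → Fin (m + 1)))
      (fun e x => c e * ∏ i, x i ^ (e i : ℕ))
      (fun e _ => Pol_mono m' (fun i => (e i : ℕ)) (fun i => by
        have := (e i).isLt
        omega) (c e))
    obtain ⟨c', hc'⟩ := h
    refine ⟨c', fun x => ?_⟩
    rw [← hc' x, hc x]
  · intro m f g hf hg
    exact Pol_add m f g hf hg
  · intro m a f hf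
    obtain ⟨c, hc⟩ := hf
    refine ⟨fun e => a * c e, fun x => ?_⟩
    simp only [hc x, Finset.mul_sum, mul_assoc]
  · intro m m' f g hf hg
    obtain ⟨c, hc⟩ := hf
    obtain ⟨c', hc'⟩ := hg
    have h := Pol_sum (σ := σ) (m + m')
      (Finset.univ : Finset ((σ → Fin (m + 1)) × (σ → Fin (m' + 1))))
      (fun p x => (c p.1 * c' p.2) * ∏ i, x i ^ ((p.1 i : ℕ) + (p.2 i : ℕ)))
      (fun p _ => Pol_mono (m + m') (fun i => (p.1 i : ℕ) + (p.2 i : ℕ)) (fun i => by
        have h1 := (p.1 i).isLt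
        have h2 := (p.2 i).isLt
        show (p.1 i : ℕ) + (p.2 i : ℕ) ≤ m + m'
        omega) (c p.1 * c' p.2))
    obtain ⟨c'', hc''⟩ := h
    refine ⟨c'', fun x => ?_⟩
    rw [← hc'' x]
    beta_reduce
    rw [hc x, hc' x, Finset.sum_mul_sum, ← Finset.sum_product']
    refine Finset.sum_congr rfl fun p _ => ?_
    simp only [pow_add, Finset.prod_mul_distrib]
    ring

end Pool.Agent.Lib.MP_c05127_co.AS
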