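import Pool.Agent.Lib.MP_c05127_co.AS.Spec

/-!
# PROJECT AS, module Ty: the number of types
-/

set_option autoImplicit false

open Finset

namespace Pool.Agent.Lib.MP_c05127_co.AS

open Pool.Agent.Lib.MP_c05127_co.Brief

private theorem Ty_num (n p a E : ℕ) (hp : p ≠ 0) (ha : a ≤ (n + 1) ^ p) :
    (2 * a + 1) ^ E ≤ (n + 2) ^ ((p + 1) * E) := by
  rw [pow_mul]
  apply Nat.pow_le_pow_left
  have h1 : (n + 1) ^ p < (n + 2) ^ p := Nat.pow_lt_pow_left (by omega) hp
  have h2 : (n + 2) ^ (p + 1) = (n + 2) ^ p * (n + 2) := pow_succ _ _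
  rw [h2]
  nlinarith [Nat.zero_le n, Nat.zero_le ((n + 2) ^ p)]

theorem tTy : S_Ty := by
  classical
  intro hFM hPol hSg hVC hCp d k hk
  refine ⟨(2 ^ k + 1) * ((2 ^ k * 3 + 1) ^ Fintype.card (Sg d k)), ?_⟩
  intro A hA
  obtain ⟨F, hF, hFR⟩ := hCp hPol d k A hk hA
  obtain ⟨J, hJ, Q, hJc, hQ, hQF⟩ := hSg hFM hPol (Sg d k) k 3 {h // h ∈ A} F hF
  have hV := hVC (Sg d k) (2 ^ k * 3) J Q hQ
  set sv : (Sg d k → ℝ) → J → SignType := fun x j => SignType.sign (Q j x) with hsv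
  have hfin : (Set.range sv).Finite := Set.toFinite _
  have hx : ∀ s : J → SignType, ∃ x : Sg d k → ℝ, s ∈ Set.range sv → sv x = s := by
    intro s
    by_cases hs : s ∈ Set.range sv
    · obtain ⟨x, hx⟩ := hs
      exact ⟨x, fun _ => hx⟩
    · exact ⟨0, fun h => absurd h hs⟩
  choose xs hxs using hx
  refine ⟨hfin.toFinset.image fun s =>
    A.powerset.filter fun S => ¬ Feas (fun h j => F h j (xs s)) (S.subtype (· ∈ A)), ?_, ?_⟩
  · refine Finset.card_image_le.trans ?_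
    rw [← Set.ncard_eq_toFinset_card (Set.range sv) hfin]
    refine hV.trans ?_
    refine Ty_num A.card (2 ^ k) (Fintype.card J) _ (by positivity) ?_
    refine hJc.trans (le_of_eq ?_)
    rw [Fintype.card_coe]
  · intro L q hL hq
    obtain ⟨x, hx⟩ := hFR L q hL hq
    refine ⟨_, Finset.mem_image_of_mem _ (hfin.mem_toFinset.2 ⟨x, rfl⟩), ?_⟩
    intro S hS
    have hmap : (S.subtype (· ∈ A)).map (Function.Embedding.subtype _) = S :=
      Finset.subtype_map_of_mem fun y hy => hS hy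
    have h1 := hx (S.subtype (· ∈ A))
    rw [hmap] at h1
    have h2 := hQF x (xs (sv x)) (fun j => (congrFun (hxs (sv x) ⟨x, rfl⟩) j).symm)
      (S.subtype (· ∈ A))
    rw [Finset.mem_filter, Finset.mem_powerset, h1, h2]
    exact ⟨fun h => ⟨hS, h⟩, fun h => h.2⟩

end Pool.Agent.Lib.MP_c05127_co.AS
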