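import Pool.Agent.Lib.MP_c05127_co.AS.Spec

/-!
# PROJECT AS, module VC (helper40): number of sign vectors of polynomials (Sauer-Shelah)
-/

set_option autoImplicit false

open Finset

namespace Pool.Agent.Lib.MP_c05127_co.AS

open Pool.Agent.Lib.MP_c05127_co.Brief

private theorem VC_sum (N D : ℕ) : ∑ k ∈ Finset.Iic D, N.choose k ≤ (N + 1) ^ D := by
  have e : ∀ D : ℕ, ∑ k ∈ Finset.range (D + 1), N.choose k ≤ (N + 1) ^ D := by
    intro D
    induction D with
    | zero => simp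
    | succ D ih =>
      rw [Finset.sum_range_succ]
      have h1 : N.choose (D + 1) ≤ N * (N + 1) ^ D := by
        calc N.choose (D + 1) ≤ N ^ (D + 1) := Nat.choose_le_pow N (D + 1)
          _ = N * N ^ D := by rw [pow_succ, mul_comm]
          _ ≤ N * (N + 1) ^ D := Nat.mul_le_mul_left _ (Nat.pow_le_pow_left (Nat.le_succ N) D)
      calc _ ≤ (N + 1) ^ D + N * (N + 1) ^ D := Nat.add_le_add ih h1
        _ = (N + 1) ^ (D + 1) := by ring
  have h : (Finset.Iic D) = Finset.range (D + 1) := by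
    ext k
    simp [Finset.mem_Iic, Finset.mem_range]
  rw [h]
  exact e D

/-- A family of half spaces shatters no set with more elements than the dimension. -/
private theorem VC_dim {E U : Type} [Fintype E] [DecidableEq U] (v : U → E → ℝ)
    (B : Finset U) (X : Type) (φ : X → E → ℝ)
    (h : ∀ t ⊆ B, ∃ x : X, ∀ u ∈ B, (0 ≤ ∑ e, v u e * φ x e) ↔ u ∈ t) :
    B.card ≤ Fintype.card E := by
  classical
  by_contra hlt
  push Not at hlt
  have hli : ¬ LinearIndependent ℝ (fun u : {u // u ∈ B} => v u.1) := by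
    intro hl
    have h1 := hl.fintype_card_le_finrank
    rw [Module.finrank_fintype_fun_eq_card, Fintype.card_coe] at h1
    omega
  rw [Fintype.not_linearIndependent_iff] at hli
  obtain ⟨g0, hg0, u0, hu0⟩ := hli
  obtain ⟨g, hg, u1, hu1⟩ : ∃ g : {u // u ∈ B} → ℝ, ∑ u, g u • v u.1 = 0 ∧ ∃ u, g u < 0 := by
    rcases lt_or_gt_of_ne hu0 with h | h
    · exact ⟨g0, hg0, u0, h⟩
    · refine ⟨fun u => -g0 u, ?_, u0, by linarith⟩
      simp only [neg_smul, Finset.sum_neg_distrib]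
      rw [hg0, neg_zero]
  obtain ⟨x, hx⟩ := h ((Finset.univ.filter fun u : {u // u ∈ B} => 0 ≤ g u).map
    (Function.Embedding.subtype _)) (by
      intro u hu
      obtain ⟨w, -, rfl⟩ := Finset.mem_map.1 hu
      exact w.2)
  have hx' : ∀ u : {u // u ∈ B}, (0 ≤ ∑ e, v u.1 e * φ x e) ↔ 0 ≤ g u := by
    intro u
    rw [hx u.1 u.2]
    constructor
    · intro hu
      obtain ⟨w, hw, hw2⟩ := Finset.mem_map.1 hu
      have : w = u := Subtype.ext hw2
      rw [← this]
      exact (Finset.mem_filter.1 hw).2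
    · intro hu
      exact Finset.mem_map.2 ⟨u, Finset.mem_filter.2 ⟨Finset.mem_univ _, hu⟩, rfl⟩
  have hpos : 0 < ∑ u : {u // u ∈ B}, g u * ∑ e, v u.1 e * φ x e := by
    refine Finset.sum_pos' (fun u _ => ?_) ⟨u1, Finset.mem_univ _, ?_⟩
    · by_cases hu : 0 ≤ g u
      · exact mul_nonneg hu ((hx' u).2 hu)
      · have h1 : ¬ 0 ≤ ∑ e, v u.1 e * φ x e := fun h => hu ((hx' u).1 h)
        push Not at hu h1
        exact (mul_pos_of_neg_of_neg hu h1).le
    · have h1 : ¬ 0 ≤ ∑ e, v u1.1 e * φ x e := fun h => by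
        have := (hx' u1).1 h
        linarith
      push Not at h1
      exact mul_pos_of_neg_of_neg hu1 h1
  have hzero : ∑ u : {u // u ∈ B}, g u * ∑ e, v u.1 e * φ x e = 0 := by
    have h1 : ∀ e, ∑ u : {u // u ∈ B}, g u * v u.1 e = 0 := by
      intro e
      have h2 := congrFun hg e
      rw [Finset.sum_apply] at h2
      simpa using h2
    calc ∑ u : {u // u ∈ B}, g u * ∑ e, v u.1 e * φ x e
        = ∑ u : {u // u ∈ B}, ∑ e, g u * v u.1 e * φ x e := by
          refine Finset.sum_congr rfl fun u _ => ?_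
          rw [Finset.mul_sum]
          exact Finset.sum_congr rfl fun e _ => by ring
      _ = ∑ e, ∑ u : {u // u ∈ B}, g u * v u.1 e * φ x e := Finset.sum_comm
      _ = ∑ e, (∑ u : {u // u ∈ B}, g u * v u.1 e) * φ x e := by
          refine Finset.sum_congr rfl fun e _ => ?_
          rw [Finset.sum_mul]
      _ = 0 := by
          refine Finset.sum_eq_zero fun e _ => ?_
          rw [h1 e, zero_mul]
  linarith

theorem tVC : S_VC := by
  classical
  intro σ _ _ m J _ Q hQ
  choose c hc using hQ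
  obtain ⟨φ, hφ⟩ : ∃ φ : (σ → ℝ) → (σ → Fin (m + 1)) → ℝ,
      ∀ x e, φ x e = ∏ i, x i ^ (e i : ℕ) := ⟨fun x e => ∏ i, x i ^ (e i : ℕ), fun _ _ => rfl⟩
  have hc' : ∀ j x, Q j x = ∑ e, c j e * φ x e := by
    intro j x
    rw [hc j x]
    exact Finset.sum_congr rfl fun e _ => by rw [hφ]
  obtain ⟨v, hv⟩ : ∃ v : J × Bool → (σ → Fin (m + 1)) → ℝ,
      ∀ u, v u = if u.2 then c u.1 else fun e => -c u.1 e :=
    ⟨fun u => if u.2 then c u.1 else fun e => -c u.1 e, fun _ => rfl⟩
  have hvt : ∀ j x, ∑ e, v (j, true) e * φ x e = Q j x := by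
    intro j x
    rw [hc', hv]
    rfl
  have hvf : ∀ j x, ∑ e, v (j, false) e * φ x e = -Q j x := by
    intro j x
    rw [hc', hv, ← Finset.sum_neg_distrib]
    refine Finset.sum_congr rfl fun e _ => ?_
    simp
  obtain ⟨Z, hZ⟩ : ∃ Z : (σ → ℝ) → Finset (J × Bool), ∀ x u,
      u ∈ Z x ↔ 0 ≤ ∑ e, v u e * φ x e :=
    ⟨fun x => Finset.univ.filter fun u => 0 ≤ ∑ e, v u e * φ x e, fun x u => by
      rw [Finset.mem_filter]
      exact ⟨fun h => h.2, fun h => ⟨Finset.mem_univ _, h⟩⟩⟩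
  obtain ⟨A, hA⟩ : ∃ A : Finset (Finset (J × Bool)), ∀ B, B ∈ A ↔ ∃ x, Z x = B :=
    ⟨Finset.univ.filter fun B => ∃ x, Z x = B, fun B => by
      rw [Finset.mem_filter]
      exact ⟨fun h => h.2, fun h => ⟨Finset.mem_univ _, h⟩⟩⟩
  obtain ⟨g, hg⟩ : ∃ g : Finset (J × Bool) → J → SignType, ∀ B j, g B j =
      if (j, true) ∈ B then (if (j, false) ∈ B then 0 else 1) else -1 :=
    ⟨fun B j => if (j, true) ∈ B then (if (j, false) ∈ B then 0 else 1) else -1, fun _ _ => rfl⟩
  have hsign : ∀ x, (fun j => SignType.sign (Q j x)) = g (Z x) := by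
    intro x
    funext j
    rw [hg]
    have h1 : (j, true) ∈ Z x ↔ 0 ≤ Q j x := by rw [hZ, hvt]
    have h2 : (j, false) ∈ Z x ↔ 0 ≤ -Q j x := by rw [hZ, hvf]
    by_cases ha : 0 ≤ Q j x
    · rw [if_pos (h1.2 ha)]
      by_cases hb : 0 ≤ -Q j x
      · rw [if_pos (h2.2 hb)]
        have h0 : Q j x = 0 := by linarith
        rw [h0, sign_zero]
      · rw [if_neg fun h => hb (h2.1 h)]
        exact sign_pos (by linarith)
    · rw [if_neg fun h => ha (h1.1 h)]
      exact sign_neg (by linarith)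
  have hsub : (Set.range fun (x : σ → ℝ) (j : J) => SignType.sign (Q j x)) ⊆
      ((A.image g : Finset (J → SignType)) : Set (J → SignType)) := by
    rintro _ ⟨x, rfl⟩
    rw [Finset.mem_coe, Finset.mem_image]
    exact ⟨Z x, (hA _).2 ⟨x, rfl⟩, (hsign x).symm⟩
  have hncard : (Set.range fun (x : σ → ℝ) (j : J) => SignType.sign (Q j x)).ncard ≤ A.card := by
    refine (Set.ncard_le_ncard hsub (Finset.finite_toSet _)).trans ?_
    rw [Set.ncard_coe_finset]
    exact Finset.card_image_le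
  have hvc : A.vcDim ≤ (m + 1) ^ Fintype.card σ := by
    unfold Finset.vcDim
    refine Finset.sup_le fun B hB => ?_
    rw [Finset.mem_shatterer] at hB
    have h1 := VC_dim v B (σ → ℝ) φ (by
      intro t ht
      obtain ⟨C, hC, hBC⟩ := hB ht
      obtain ⟨x, hx⟩ := (hA C).1 hC
      refine ⟨x, fun u hu => ?_⟩
      rw [← hZ, hx, ← hBC, Finset.mem_inter]
      exact ⟨fun h => ⟨hu, h⟩, fun h => h.2⟩)
    rw [Fintype.card_fun, Fintype.card_fin] at h1
    exact h1
  have hN : Fintype.card (J × Bool) = 2 * Fintype.card J := by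
    rw [Fintype.card_prod, Fintype.card_bool, mul_comm]
  calc (Set.range fun (x : σ → ℝ) (j : J) => SignType.sign (Q j x)).ncard ≤ A.card := hncard
    _ ≤ A.shatterer.card := Finset.card_le_card_shatterer A
    _ ≤ ∑ k ∈ Finset.Iic A.vcDim, (Fintype.card (J × Bool)).choose k :=
        Finset.card_shatterer_le_sum_vcDim
    _ ≤ (Fintype.card (J × Bool) + 1) ^ A.vcDim := VC_sum _ _
    _ ≤ (Fintype.card (J × Bool) + 1) ^ ((m + 1) ^ Fintype.card σ) :=
        Nat.pow_le_pow_right (Nat.succ_pos _) hvc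
    _ = (2 * Fintype.card J + 1) ^ ((m + 1) ^ Fintype.card σ) := by rw [hN]

end Pool.Agent.Lib.MP_c05127_co.AS
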