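import Pool.Agent.Lib.MP_c05127_co.PP.All
import Pool.Agent.Lib.MP_c05127_co.PP.Fink
import Pool.Agent.Lib.MP_c05127_co.PP.Gen1k
import Pool.Agent.Lib.MP_c05127_co.PP.Gen2k
import Pool.Agent.Lib.MP_c05127_co.PP.FinalE
import Pool.Agent.Lib.MP_c05127_co.AS.Mc
import Pool.Agent.Lib.MP_c05127_co.AS.Nu
import Pool.Agent.Lib.MP_c05127_co.AS.Key2
import Pool.Agent.Lib.MP_c05127_co.AS.FM
import Pool.Agent.Lib.MP_c05127_co.AS.Pol
import Pool.Agent.Lib.MP_c05127_co.AS.Sg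
import Pool.Agent.Lib.MP_c05127_co.AS.VC
import Pool.Agent.Lib.MP_c05127_co.AS.Cp
import Pool.Agent.Lib.MP_c05127_co.AS.Ty
import Pool.Agent.Lib.MP_c05127_co.AS.Nd
import Pool.Agent.Lib.MP_c05127_co.AS.Num
import Pool.Agent.Lib.MP_c05127_co.AS.Cor3

/-!
# PROJECT AS (MP_c05127_co): composition of the modules
-/

set_option autoImplicit false

namespace Pool.Agent.Lib.MP_c05127_co.AS

/-- The theorem for powers of two. -/
theorem allTwo : PP.S_Final :=
  PP.wFinalE (PP.wFink Pool.Agent.MPc05127.PP.allGeo) PP.wGen1k PP.wGen2k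

/-- The main theorem. -/
theorem allMain3 : S_Main3 :=
  tAsm3 (tPer3 tMc tNu tKey2 tTy tFM tPol tSg tVC tCp tNd tNum) allTwo

end Pool.Agent.Lib.MP_c05127_co.AS
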