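import Pool.Agent.Lib.MP_c05127_co.AS.SpecB

/-!
PROJECT AS (MP_c05127_co), module Asm2 (helper56): assembly, extended.
-/

set_option autoImplicit false

open Finset

namespace Pool.Agent.Lib.MP_c05127_co.AS

open Pool.Agent.Lib.MP_c05127_co.Brief

/-- the depth is monotone -/
private theorem Asm2_mono {d : ℕ} {S S' : Finset (Aff d)} {q : E d} {L : Sub d} (hS : S ⊆ S')
    (h : 1 ≤ RD S q L) : 1 ≤ RD S' q L := by
  classical
  have hne : {n | ∃ v, In L v ∧ v ≠ 0 ∧ n = (S.filter (fun h => Hits h q v)).card}.Nonempty := by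
    by_contra hc
    rw [Set.not_nonempty_iff_eq_empty] at hc
    have h0 : RD S q L =
      sInf {n | ∃ v, In L v ∧ v ≠ 0 ∧ n = (S.filter (fun h => Hits h q v)).card} := rfl
    rw [h0, hc, Nat.sInf_empty] at h
    omega
  obtain ⟨n, v, hv, hv0, _⟩ := hne
  have hne' : {n | ∃ v, In L v ∧ v ≠ 0 ∧ n = (S'.filter (fun h => Hits h q v)).card}.Nonempty :=
    ⟨_, v, hv, hv0, rfl⟩
  obtain ⟨v', hv', hv0', hn'⟩ := Nat.sInf_mem hne'
  have h1 : RD S' q L = (S'.filter (fun h => Hits h q v')).card := hn'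
  have h2 : RD S q L ≤ (S.filter (fun h => Hits h q v')).card := Nat.sInf_le ⟨v', hv', hv0', rfl⟩
  have h3 : (S.filter (fun h => Hits h q v')).card ≤ (S'.filter (fun h => Hits h q v')).card :=
    card_le_card (filter_subset_filter _ hS)
  omega

/-- a splitting gives a packing -/
private theorem Asm2_pk {d r : ℕ} {A : Finset (Aff d)} {q : E d} {L : Sub d}
    (h : Splits r A q L) : Pk (fun S => 1 ≤ RD S q L) r A := by
  obtain ⟨P, h1, h2, h3⟩ := h
  exact ⟨P, h1, fun j x hx => (h2 x).2 ⟨j, hx⟩, h3⟩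

/-- a packing gives a splitting -/
private theorem Asm2_split {d r : ℕ} {A : Finset (Aff d)} {q : E d} {L : Sub d} (hr : 1 ≤ r)
    (h : Pk (fun S => 1 ≤ RD S q L) r A) : Splits r A q L := by
  classical
  obtain ⟨P, h1, h2, h3⟩ := h
  let j0 : Fin r := ⟨0, hr⟩
  let U : Finset (Aff d) := univ.biUnion P
  have hU : ∀ j, P j ⊆ U := fun j x hx => mem_biUnion.2 ⟨j, mem_univ _, hx⟩
  have hsub : ∀ j, P j ⊆ (if j = j0 then P j ∪ (A \ U) else P j) := by
    intro j
    by_cases hj : j = j0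
    · rw [if_pos hj]
      exact subset_union_left
    · rw [if_neg hj]
  refine ⟨fun j => if j = j0 then P j ∪ (A \ U) else P j, ?_, ?_, ?_⟩
  · intro j j' hjj
    have hd : ∀ i, Disjoint (A \ U) (P i) := fun i =>
      disjoint_of_subset_right (hU i) sdiff_disjoint
    by_cases hj : j = j0
    · have hj' : j' ≠ j0 := fun h => hjj (hj.trans h.symm)
      simp only [if_pos hj, if_neg hj']
      rw [disjoint_union_left]
      exact ⟨h1 _ _ hjj, hd _⟩
    · by_cases hj' : j' = j0
      · simp only [if_neg hj, if_pos hj']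
        rw [disjoint_union_right]
        exact ⟨h1 _ _ hjj, (hd _).symm⟩
      · simp only [if_neg hj, if_neg hj']
        exact h1 _ _ hjj
  · intro x
    constructor
    · intro hx
      by_cases hxU : x ∈ U
      · obtain ⟨j, _, hj⟩ := mem_biUnion.1 hxU
        exact ⟨j, hsub j hj⟩
      · refine ⟨j0, ?_⟩
        simp only [if_true]
        exact mem_union_right _ (mem_sdiff.2 ⟨hx, hxU⟩)
    · rintro ⟨j, hj⟩
      by_cases hj0 : j = j0
      · simp only [if_pos hj0] at hj
        rcases mem_union.1 hj with h | h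
        · exact h2 j h
        · exact (mem_sdiff.1 h).1
      · simp only [if_neg hj0] at hj
        exact h2 j hj
  · intro j
    exact Asm2_mono (hsub j) (h3 j)

theorem tAsm2 : S_Asm2 := by
  intro hMc hNu hKey hTy hFM hPol hSg hVC hCp hNd hNum hPer hFinal d k hk hkd δ hδ
  obtain ⟨C, hC, hP⟩ := hPer hMc hNu hKey hTy hFM hPol hSg hVC hCp hNd hNum d k hk (min δ 1)
    (lt_min hδ one_pos) (min_le_right _ _)
  refine ⟨C, hC, ?_⟩
  intro r A hA hr hG
  have hr1 : ∀ i, 1 ≤ r i := by
    intro i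
    rcases hr i with ⟨e, he, _⟩ | h
    · rw [he]
      exact Nat.one_le_two_pow
    · exact h.1
  choose B a hB hBc hcap hdir using fun i => hP (A i) (r i) (hA i) (hr i)
  have hcase : PP.NoDirK (fun i => 2 ^ a i) B ∨ PP.GenPosK B := by
    rcases hG with hG | hG
    · exact Or.inr ⟨fun i j hij => Disjoint.mono (hB i) (hB j) (hG.1 i j hij), fun S hS hc =>
        hG.2 S (fun h hh => by
          obtain ⟨i, hi⟩ := hS h hh
          exact ⟨i, hB i hi⟩) hc⟩
    · left
      intro u hu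
      obtain ⟨i, hi⟩ := hG u hu
      refine ⟨i, hdir i u (hi.trans_le ?_)⟩
      exact mul_le_mul_of_nonneg_right (by linarith [min_le_left δ 1]) (Nat.cast_nonneg _)
  obtain ⟨L, hL, q, hq, hS⟩ := hFinal d k (fun i => 2 ^ a i) B hk hkd (fun i => ⟨a i, rfl⟩)
    (fun i h hh => hA i h (hB i hh)) hBc hcase
  exact ⟨L, hL, q, hq, fun i => Asm2_split (hr1 i) (hcap i L q hL hq (Asm2_pk (hS i)))⟩

end Pool.Agent.Lib.MP_c05127_co.AS
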