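import Pool.Agent.Lib.MP_c05127_co.AS.Spec

/-!
PROJECT AS (MP_c05127_co), module Cor: the corollary for the sizes of Q1.
-/

set_option autoImplicit false

open Finset

namespace Pool.Agent.Lib.MP_c05127_co.AS

open Pool.Agent.Lib.MP_c05127_co.Brief

private theorem Cor_num (k : ℕ) (C : ℝ) (hC : 0 < C) (n r : ℕ) (hr : 1 ≤ r)
    (hn : n = (k + 1) * (r - 1) + 1) :
    ∃ r' : ℕ, 1 ≤ r' ∧ (r' = 1 ∨ (r' : ℝ) ≤ n / (k + 1) - C * (n : ℝ) ^ (4 / 5 : ℝ)) ∧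
      (r : ℝ) - (2 + C * ((k : ℝ) + 1) ^ (4 / 5 : ℝ)) * (r : ℝ) ^ (4 / 5 : ℝ) ≤ r' := by
  have hk : (0 : ℝ) < (k : ℝ) + 1 := by positivity
  obtain ⟨q, rfl⟩ : ∃ q, r = q + 1 := ⟨r - 1, by omega⟩
  have hn' : (n : ℝ) = ((k : ℝ) + 1) * q + 1 := by
    rw [hn]
    push_cast [Nat.add_sub_cancel]
    ring
  have h1 : (q : ℝ) ≤ n / (k + 1) := by
    rw [le_div_iff₀ hk, hn']
    nlinarith
  have h2 : (n : ℝ) ≤ ((k : ℝ) + 1) * ((q : ℝ) + 1) := by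
    rw [hn']
    have : (0 : ℝ) ≤ (k : ℝ) := by positivity
    nlinarith
  have hn0 : (0 : ℝ) ≤ n := by positivity
  have h3 : (n : ℝ) ^ (4 / 5 : ℝ) ≤
      ((k : ℝ) + 1) ^ (4 / 5 : ℝ) * ((q : ℝ) + 1) ^ (4 / 5 : ℝ) := by
    rw [← Real.mul_rpow hk.le (by positivity)]
    exact Real.rpow_le_rpow hn0 h2 (by norm_num)
  have h4 : (1 : ℝ) ≤ ((q : ℝ) + 1) ^ (4 / 5 : ℝ) :=
    Real.one_le_rpow (by have : (0 : ℝ) ≤ q := by positivity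
                         linarith) (by norm_num)
  set v : ℝ := n / (k + 1) - C * (n : ℝ) ^ (4 / 5 : ℝ) with hv
  refine ⟨max 1 ⌊v⌋₊, le_max_left _ _, ?_, ?_⟩
  · rcases Nat.lt_or_ge ⌊v⌋₊ 1 with h | h
    · left
      exact max_eq_left h.le
    · right
      rw [max_eq_right h]
      have hv1 : (1 : ℝ) ≤ v := (Nat.one_le_floor_iff v).1 h
      exact Nat.floor_le (by linarith)
  · have h5 : v - 1 < (⌊v⌋₊ : ℝ) := Nat.sub_one_lt_floor v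
    have h6 : ((⌊v⌋₊ : ℕ) : ℝ) ≤ ((max 1 ⌊v⌋₊ : ℕ) : ℝ) := by
      exact_mod_cast le_max_right _ _
    have h7 : C * (n : ℝ) ^ (4 / 5 : ℝ) ≤
        C * (((k : ℝ) + 1) ^ (4 / 5 : ℝ) * ((q : ℝ) + 1) ^ (4 / 5 : ℝ)) :=
      mul_le_mul_of_nonneg_left h3 hC.le
    push_cast at h6 ⊢
    nlinarith

theorem tCor : S_Cor := by
  intro hM d k hk hkd
  obtain ⟨C, hC, hm⟩ := hM d k hk hkd
  refine ⟨2 + C * ((k : ℝ) + 1) ^ (4 / 5 : ℝ), by positivity, ?_⟩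
  intro r A hr hA hcard hgp
  choose r' h1 h2 h3 using fun i => Cor_num k C hC (A i).card (r i) (hr i) (hcard i)
  refine ⟨r', h3, ?_⟩
  exact hm r' A hA hgp (fun i => by rw [hcard i]; omega) h1 h2

end Pool.Agent.Lib.MP_c05127_co.AS
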