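import Pool.Agent.Lib.MP_c05127_co.AS.Spec

/-!
# PROJECT AS (MP_c05127_co), module Key: the key lemma (random labels and union bound)
-/

set_option autoImplicit false

open Finset

namespace Pool.Agent.Lib.MP_c05127_co.AS

open Pool.Agent.Lib.MP_c05127_co.Brief

/-- the members of `A` with the label `c` -/
private def Key_B {α : Type} (A : Finset α) {T : ℕ} (ω : {x // x ∈ A} → Fin T) (c : Fin T) :
    Finset α := (univ.filter fun x => ω x = c).map (Function.Embedding.subtype _)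

private theorem Key_mem {α : Type} (A : Finset α) {T : ℕ} (ω : {x // x ∈ A} → Fin T) (c : Fin T)
    (y : α) : y ∈ Key_B A ω c ↔ ∃ h : y ∈ A, ω ⟨y, h⟩ = c := by
  unfold Key_B
  rw [mem_map]
  constructor
  · rintro ⟨x, hx, rfl⟩
    exact ⟨x.2, (mem_filter.1 hx).2⟩
  · rintro ⟨h, hy⟩
    exact ⟨⟨y, h⟩, mem_filter.2 ⟨mem_univ _, hy⟩, rfl⟩

private theorem Key_sub {α : Type} (A : Finset α) {T : ℕ} (ω : {x // x ∈ A} → Fin T) (c : Fin T) :
    Key_B A ω c ⊆ A := by
  intro y hy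
  obtain ⟨h, -⟩ := (Key_mem A ω c y).1 hy
  exact h

private theorem Key_disj {α : Type} (A : Finset α) {T : ℕ} (ω : {x // x ∈ A} → Fin T)
    (c c' : Fin T) (h : c ≠ c') : Disjoint (Key_B A ω c) (Key_B A ω c') := by
  rw [Finset.disjoint_left]
  intro y hy hy'
  obtain ⟨h1, h2⟩ := (Key_mem A ω c y).1 hy
  obtain ⟨h3, h4⟩ := (Key_mem A ω c' y).1 hy'
  exact h (h2.symm.trans h4)

private theorem Key_up {α : Type} [DecidableEq α] (A : Finset α) {T : ℕ}
    (ω : {x // x ∈ A} → Fin T) (i : {x // x ∈ A}) (c' c : Fin T) :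
    Key_B A (Function.update ω i c') c ⊆ insert i.1 (Key_B A ω c) := by
  intro y hy
  obtain ⟨h1, h2⟩ := (Key_mem A _ c y).1 hy
  rw [mem_insert]
  by_cases hyi : (⟨y, h1⟩ : {x // x ∈ A}) = i
  · left
    rw [← hyi]
  · right
    rw [Function.update_of_ne hyi] at h2
    exact (Key_mem A ω c y).2 ⟨h1, h2⟩

private theorem Key_down {α : Type} [DecidableEq α] (A : Finset α) {T : ℕ}
    (ω : {x // x ∈ A} → Fin T) (i : {x // x ∈ A}) (c' c : Fin T) :
    Key_B A ω c ⊆ insert i.1 (Key_B A (Function.update ω i c') c) := by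
  intro y hy
  obtain ⟨h1, h2⟩ := (Key_mem A _ c y).1 hy
  rw [mem_insert]
  by_cases hyi : (⟨y, h1⟩ : {x // x ∈ A}) = i
  · left
    rw [← hyi]
  · right
    refine (Key_mem A _ c y).2 ⟨h1, ?_⟩
    rw [Function.update_of_ne hyi]
    exact h2

private theorem Key_card {α : Type} (A : Finset α) {T : ℕ} (ω : {x // x ∈ A} → Fin T) :
    ∑ c : Fin T, (Key_B A ω c).card = A.card := by
  have h1 : ∀ c, (Key_B A ω c).card = (univ.filter fun x => ω x = c).card := fun c => by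
    unfold Key_B
    rw [card_map]
  rw [Finset.sum_congr rfl fun c _ => h1 c]
  have h2 := Finset.card_eq_sum_card_fiberwise (f := ω) (s := univ) (t := univ)
    (fun x _ => mem_univ _)
  rw [← h2, card_univ, Fintype.card_coe]

private theorem Key_swap {α : Type} [DecidableEq α] (A : Finset α) {T : ℕ} (c0 c : Fin T)
    (g : Finset α → ℝ) :
    av (fun ω : {x // x ∈ A} → Fin T => g (Key_B A ω c)) =
      av (fun ω : {x // x ∈ A} → Fin T => g (Key_B A ω c0)) := by
  unfold av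
  congr 1
  have h1 := Equiv.sum_comp (Equiv.arrowCongr (Equiv.refl {x // x ∈ A}) (Equiv.swap c0 c))
    (fun ω : {x // x ∈ A} → Fin T => g (Key_B A ω c0))
  rw [← h1]
  refine Finset.sum_congr rfl fun ω _ => ?_
  refine congrArg g ?_
  ext y
  rw [Key_mem, Key_mem]
  have h2 : ∀ h : y ∈ A, (Equiv.arrowCongr (Equiv.refl {x // x ∈ A}) (Equiv.swap c0 c)) ω ⟨y, h⟩
      = Equiv.swap c0 c (ω ⟨y, h⟩) := fun _ => rfl
  constructor
  · rintro ⟨h, hy⟩
    refine ⟨h, ?_⟩
    rw [h2, hy, Equiv.swap_apply_right]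
  · rintro ⟨h, hy⟩
    refine ⟨h, ?_⟩
    rw [h2, Equiv.swap_apply_eq_iff, Equiv.swap_apply_left] at hy
    exact hy

private theorem Key_sum {α : Type} [DecidableEq α] (A : Finset α) {T : ℕ} (c0 : Fin T)
    (g : Finset α → ℝ) :
    (T : ℝ) * av (fun ω : {x // x ∈ A} → Fin T => g (Key_B A ω c0)) =
      av (fun ω : {x // x ∈ A} → Fin T => ∑ c, g (Key_B A ω c)) := by
  have h1 : av (fun ω : {x // x ∈ A} → Fin T => ∑ c, g (Key_B A ω c)) =
      ∑ c, av (fun ω : {x // x ∈ A} → Fin T => g (Key_B A ω c)) := by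
    unfold av
    rw [← Finset.sum_div, Finset.sum_comm]
  rw [h1, Finset.sum_congr rfl fun c _ => Key_swap A c0 c g, Finset.sum_const, card_univ,
    Fintype.card_fin, nsmul_eq_mul]

private theorem Key_av_le {Ω : Type} [Fintype Ω] (hΩ : 0 < Fintype.card Ω) (f : Ω → ℝ) (K : ℝ)
    (h : ∀ ω, f ω ≤ K) : av f ≤ K := by
  unfold av
  have h0 : (0 : ℝ) < Fintype.card Ω := by exact_mod_cast hΩ
  rw [div_le_iff₀ h0]
  calc ∑ ω, f ω ≤ ∑ _ω : Ω, K := Finset.sum_le_sum fun ω _ => h ω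
    _ = K * Fintype.card Ω := by rw [Finset.sum_const, card_univ, nsmul_eq_mul, mul_comm]

theorem tKey : S_Key := by
  intro hMc hNu α _ A K F T b s t hK0 hF hT ht0 ht2 hlog hTs
  classical
  have hT' : (1 : ℝ) ≤ T := by exact_mod_cast hT
  have hs0 : (0 : ℝ) ≤ s := Nat.cast_nonneg s
  have hsA : (s : ℝ) ≤ A.card := by
    nlinarith [mul_le_mul_of_nonneg_right hT' (add_nonneg hs0 ht0)]
  rcases Nat.eq_zero_or_pos A.card with hA | hA
  · -- the empty set
    have h0 : (A.card : ℝ) = 0 := by rw [hA]; simp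
    rw [h0] at ht2 hsA
    have ht : t = 0 := by linarith
    refine ⟨∅, empty_subset _, ?_, fun cap _ hb => ?_⟩
    · exact_mod_cast hsA
    · have h1 : nu cap ∅ ≤ 0 := by
        unfold nu
        exact Nat.findGreatest_le _
      have h2 : b = 0 := by omega
      rw [h2, ht]
      simp
  rcases Finset.eq_empty_or_nonempty F with hF0 | hF0
  · -- no families
    refine ⟨A, subset_rfl, by exact_mod_cast hsA, fun cap hcap => ?_⟩
    obtain ⟨𝒮, h𝒮, -⟩ := hF cap hcap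
    rw [hF0] at h𝒮
    exact absurd h𝒮 (notMem_empty _)
  -- the main case
  obtain ⟨c0, -⟩ : ∃ c0 : Fin T, c0 = ⟨0, hT⟩ := ⟨_, rfl⟩
  have hn : Fintype.card {x // x ∈ A} = A.card := Fintype.card_coe A
  have hn0 : (0 : ℝ) < A.card := by exact_mod_cast hA
  have hM1 : (1 : ℝ) ≤ F.card := by exact_mod_cast Finset.card_pos.2 hF0
  have hN : 0 < Fintype.card ({x // x ∈ A} → Fin T) := by
    have : Nonempty (Fin T) := ⟨c0⟩
    exact Fintype.card_pos
  have hN0 : (0 : ℝ) < Fintype.card ({x // x ∈ A} → Fin T) := by exact_mod_cast hN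
  have ht2' : t ≤ 2 * Fintype.card {x // x ∈ A} := by rw [hn]; exact ht2
  have hexp : Real.exp (-(t ^ 2 / (4 * Fintype.card {x // x ∈ A}))) ≤ 1 / (4 * F.card) := by
    rw [hn]
    have h1 : Real.log (4 * F.card) ≤ t ^ 2 / (4 * A.card) := by
      rw [le_div_iff₀ (by positivity)]
      linarith
    calc Real.exp (-(t ^ 2 / (4 * A.card))) ≤ Real.exp (-Real.log (4 * F.card)) :=
          Real.exp_le_exp.2 (by linarith)
      _ = 1 / (4 * F.card) := by
          rw [Real.exp_neg, Real.exp_log (by positivity), one_div]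
  -- (i) few points with the label c0
  have hi : ((univ.filter fun ω : {x // x ∈ A} → Fin T => (Key_B A ω c0).card < s).card : ℝ) ≤
      1 / 4 * Fintype.card ({x // x ∈ A} → Fin T) := by
    have hav : (T : ℝ) * av (fun ω : {x // x ∈ A} → Fin T => -((Key_B A ω c0).card : ℝ)) =
        -(A.card : ℝ) := by
      rw [Key_sum A c0 (fun S => -(S.card : ℝ))]
      have h1 : (fun ω : {x // x ∈ A} → Fin T => ∑ c, -((Key_B A ω c).card : ℝ)) =
          fun _ => -(A.card : ℝ) := by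
        funext ω
        rw [Finset.sum_neg_distrib]
        congr 1
        exact_mod_cast Key_card A ω
      rw [h1]
      unfold av
      rw [Finset.sum_const, card_univ, nsmul_eq_mul]
      field_simp
    have hMcf := hMc {x // x ∈ A} T hT
      (fun ω : {x // x ∈ A} → Fin T => -((Key_B A ω c0).card : ℝ)) (fun ω i c => by
        have h1 : (Key_B A (Function.update ω i c) c0).card ≤ (Key_B A ω c0).card + 1 :=
          (card_le_card (Key_up A ω i c c0)).trans (card_insert_le _ _)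
        have h2 : (Key_B A ω c0).card ≤ (Key_B A (Function.update ω i c) c0).card + 1 :=
          (card_le_card (Key_down A ω i c c0)).trans (card_insert_le _ _)
        have h1' : ((Key_B A (Function.update ω i c) c0).card : ℝ) ≤ (Key_B A ω c0).card + 1 := by
          exact_mod_cast h1
        have h2' : ((Key_B A ω c0).card : ℝ) ≤ (Key_B A (Function.update ω i c) c0).card + 1 := by
          exact_mod_cast h2
        rw [abs_le]
        constructor <;> linarith) t ht0 ht2'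
    refine le_trans ?_ (hMcf.trans (mul_le_mul_of_nonneg_right (hexp.trans ?_) hN0.le))
    · have hsub : (univ.filter fun ω : {x // x ∈ A} → Fin T => (Key_B A ω c0).card < s) ⊆
          univ.filter fun ω : {x // x ∈ A} → Fin T =>
            av (fun ω : {x // x ∈ A} → Fin T => -((Key_B A ω c0).card : ℝ)) + t ≤
              -((Key_B A ω c0).card : ℝ) := by
        intro ω hω
        rw [mem_filter] at hω ⊢
        refine ⟨hω.1, ?_⟩
        have h1 : ((Key_B A ω c0).card : ℝ) ≤ s := by exact_mod_cast hω.2.le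
        have h2 : (T : ℝ) * (av (fun ω : {x // x ∈ A} → Fin T => -((Key_B A ω c0).card : ℝ)) +
            (s + t)) ≤ T * 0 := by
          rw [mul_add, hav]
          linarith
        have h3 := le_of_mul_le_mul_left h2 (by linarith)
        linarith
      exact_mod_cast card_le_card hsub
    · rw [div_le_div_iff₀ (by positivity) (by norm_num)]
      linarith
  -- (ii) the bad families
  have hne : ∀ 𝒮 : Finset (Finset α), ¬ ((∅ : Finset α) ∈ 𝒮 ∧ (∅ : Finset α) ≠ ∅) :=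
    fun 𝒮 h => h.2 rfl
  have hii : ∀ 𝒮 ∈ F.filter (fun 𝒮 => av (fun ω : {x // x ∈ A} → Fin T =>
      (nu (fun S => S ∈ 𝒮 ∧ S ≠ ∅) (Key_B A ω c0) : ℝ)) < b - t),
      ((univ.filter fun ω : {x // x ∈ A} → Fin T =>
        b ≤ nu (fun S => S ∈ 𝒮 ∧ S ≠ ∅) (Key_B A ω c0)).card : ℝ) ≤
      1 / (4 * F.card) * Fintype.card ({x // x ∈ A} → Fin T) := by
    intro 𝒮 h𝒮
    rw [mem_filter] at h𝒮
    obtain ⟨-, hmono, hins, -, -⟩ := hNu α (fun S => S ∈ 𝒮 ∧ S ≠ ∅) (hne 𝒮)
    have hMcf := hMc {x // x ∈ A} T hT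
      (fun ω : {x // x ∈ A} → Fin T => (nu (fun S => S ∈ 𝒮 ∧ S ≠ ∅) (Key_B A ω c0) : ℝ))
      (fun ω i c => by
        have h1 := (hmono _ _ (Key_up A ω i c c0)).trans (hins _ _)
        have h2 := (hmono _ _ (Key_down A ω i c c0)).trans (hins _ _)
        have h1' : (nu (fun S => S ∈ 𝒮 ∧ S ≠ ∅) (Key_B A (Function.update ω i c) c0) : ℝ) ≤
          nu (fun S => S ∈ 𝒮 ∧ S ≠ ∅) (Key_B A ω c0) + 1 := by exact_mod_cast h1
        have h2' : (nu (fun S => S ∈ 𝒮 ∧ S ≠ ∅) (Key_B A ω c0) : ℝ) ≤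
          nu (fun S => S ∈ 𝒮 ∧ S ≠ ∅) (Key_B A (Function.update ω i c) c0) + 1 := by
          exact_mod_cast h2
        rw [abs_le]
        constructor <;> linarith) t ht0 ht2'
    refine le_trans ?_ (hMcf.trans (mul_le_mul_of_nonneg_right hexp hN0.le))
    have hsub : (univ.filter fun ω : {x // x ∈ A} → Fin T =>
        b ≤ nu (fun S => S ∈ 𝒮 ∧ S ≠ ∅) (Key_B A ω c0)) ⊆
        univ.filter fun ω : {x // x ∈ A} → Fin T =>
          av (fun ω : {x // x ∈ A} → Fin T =>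
            (nu (fun S => S ∈ 𝒮 ∧ S ≠ ∅) (Key_B A ω c0) : ℝ)) + t ≤
            (nu (fun S => S ∈ 𝒮 ∧ S ≠ ∅) (Key_B A ω c0) : ℝ) := by
      intro ω hω
      rw [mem_filter] at hω ⊢
      refine ⟨hω.1, ?_⟩
      have h1 : (b : ℝ) ≤ nu (fun S => S ∈ 𝒮 ∧ S ≠ ∅) (Key_B A ω c0) := by exact_mod_cast hω.2
      linarith [h𝒮.2]
    exact_mod_cast card_le_card hsub
  have hU : (((F.filter (fun 𝒮 => av (fun ω : {x // x ∈ A} → Fin T =>
      (nu (fun S => S ∈ 𝒮 ∧ S ≠ ∅) (Key_B A ω c0) : ℝ)) < b - t)).biUnion fun 𝒮 =>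
        univ.filter fun ω : {x // x ∈ A} → Fin T =>
          b ≤ nu (fun S => S ∈ 𝒮 ∧ S ≠ ∅) (Key_B A ω c0)).card : ℝ) ≤
      1 / 4 * Fintype.card ({x // x ∈ A} → Fin T) := by
    calc _ ≤ ((∑ 𝒮 ∈ F.filter (fun 𝒮 => av (fun ω : {x // x ∈ A} → Fin T =>
          (nu (fun S => S ∈ 𝒮 ∧ S ≠ ∅) (Key_B A ω c0) : ℝ)) < b - t),
          (univ.filter fun ω : {x // x ∈ A} → Fin T =>
            b ≤ nu (fun S => S ∈ 𝒮 ∧ S ≠ ∅) (Key_B A ω c0)).card : ℕ) : ℝ) := by
          exact_mod_cast card_biUnion_le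
      _ ≤ ∑ _𝒮 ∈ F.filter (fun 𝒮 => av (fun ω : {x // x ∈ A} → Fin T =>
          (nu (fun S => S ∈ 𝒮 ∧ S ≠ ∅) (Key_B A ω c0) : ℝ)) < b - t),
          1 / (4 * (F.card : ℝ)) * Fintype.card ({x // x ∈ A} → Fin T) := by
          rw [Nat.cast_sum]
          exact Finset.sum_le_sum hii
      _ ≤ (F.card : ℝ) * (1 / (4 * (F.card : ℝ)) * Fintype.card ({x // x ∈ A} → Fin T)) := by
          rw [Finset.sum_const, nsmul_eq_mul]
          refine mul_le_mul_of_nonneg_right ?_ (by positivity)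
          exact_mod_cast card_filter_le _ _
      _ = 1 / 4 * Fintype.card ({x // x ∈ A} → Fin T) := by
          have : (F.card : ℝ) ≠ 0 := by linarith
          field_simp
  -- a labelling outside both sets
  have hex : ∀ E1 E2 : Finset ({x // x ∈ A} → Fin T),
      (E1.card : ℝ) ≤ 1 / 4 * Fintype.card ({x // x ∈ A} → Fin T) →
      (E2.card : ℝ) ≤ 1 / 4 * Fintype.card ({x // x ∈ A} → Fin T) → ∃ ω, ω ∉ E1 ∪ E2 := by
    intro E1 E2 hE1 hE2
    by_contra hcon
    have h0 : ∀ ω, ω ∈ E1 ∪ E2 := fun ω => by_contra fun h => hcon ⟨ω, h⟩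
    have h1 := card_union_le E1 E2
    rw [Finset.eq_univ_of_forall h0, card_univ] at h1
    have h2 : (Fintype.card ({x // x ∈ A} → Fin T) : ℝ) ≤
        1 / 4 * Fintype.card ({x // x ∈ A} → Fin T) +
        1 / 4 * Fintype.card ({x // x ∈ A} → Fin T) := by
      refine le_trans ?_ (add_le_add hE1 hE2)
      exact_mod_cast h1
    linarith
  obtain ⟨ω, hω⟩ := hex _ _ hi hU
  rw [mem_union, not_or] at hω
  obtain ⟨hω1, hω2⟩ := hω
  refine ⟨Key_B A ω c0, Key_sub A ω c0, ?_, fun cap hcap hb => ?_⟩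
  · by_contra hcon
    exact hω1 (mem_filter.2 ⟨mem_univ _, not_le.1 hcon⟩)
  · obtain ⟨𝒮, h𝒮, hcS⟩ := hF cap hcap
    obtain ⟨-, -, -, hpart, hres⟩ := hNu α cap (hK0 cap hcap)
    have hequiv : ∀ S, S ⊆ A → (cap S ↔ (S ∈ 𝒮 ∧ S ≠ ∅)) := by
      intro S hS
      constructor
      · intro h
        refine ⟨(hcS S hS).1 h, fun he => ?_⟩
        rw [he] at h
        exact hK0 cap hcap h
      · intro h
        exact (hcS S hS).2 h.1
    have hnu : ∀ B, B ⊆ A → nu cap B = nu (fun S => S ∈ 𝒮 ∧ S ≠ ∅) B := fun B hB =>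
      hres A B (fun S => S ∈ 𝒮 ∧ S ≠ ∅) hB hequiv
    have hgood : (b : ℝ) - t ≤ av (fun ω : {x // x ∈ A} → Fin T =>
        (nu (fun S => S ∈ 𝒮 ∧ S ≠ ∅) (Key_B A ω c0) : ℝ)) := by
      by_contra hcon
      refine hω2 (mem_biUnion.2 ⟨𝒮, mem_filter.2 ⟨h𝒮, not_le.1 hcon⟩, mem_filter.2
        ⟨mem_univ _, ?_⟩⟩)
      rw [← hnu _ (Key_sub A ω c0)]
      exact hb
    calc (T : ℝ) * (b - t) ≤ T * av (fun ω : {x // x ∈ A} → Fin T =>
          (nu (fun S => S ∈ 𝒮 ∧ S ≠ ∅) (Key_B A ω c0) : ℝ)) :=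
          mul_le_mul_of_nonneg_left hgood (by linarith)
      _ = av (fun ω : {x // x ∈ A} → Fin T => ∑ c,
          (nu (fun S => S ∈ 𝒮 ∧ S ≠ ∅) (Key_B A ω c) : ℝ)) :=
          Key_sum A c0 (fun S => (nu (fun S => S ∈ 𝒮 ∧ S ≠ ∅) S : ℝ))
      _ ≤ nu cap A := by
          refine Key_av_le hN _ _ fun ω' => ?_
          have h1 := hpart A T (Key_B A ω') (Key_disj A ω') (Key_sub A ω')
          have h2 : ∑ c, (nu (fun S => S ∈ 𝒮 ∧ S ≠ ∅) (Key_B A ω' c) : ℝ) =
              ((∑ c, nu cap (Key_B A ω' c) : ℕ) : ℝ) := by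
            rw [Nat.cast_sum]
            exact Finset.sum_congr rfl fun c _ => by rw [hnu _ (Key_sub A ω' c)]
          rw [h2]
          exact_mod_cast h1

end Pool.Agent.Lib.MP_c05127_co.AS
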