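import Pool.Agent.Lib.MP_c05127_co.AS.SpecB

/-! # PROJECT AS, module Num2: numbers with delta -/

set_option autoImplicit false

open Finset

namespace Pool.Agent.Lib.MP_c05127_co.AS

open Pool.Agent.Lib.MP_c05127_co.Brief

private theorem Num2_log (C0 : ℕ) (X : ℝ) (hX : ((48 * C0 + 8 : ℝ)) ^ 2 ≤ X) :
    4 * (Real.log 8 + C0 * Real.log (X ^ 5 + 2)) ≤ X := by
  have hc : (0 : ℝ) ≤ C0 := Nat.cast_nonneg _
  have hX64 : 64 ≤ X := by nlinarith
  have hX0 : 0 < X := by linarith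
  have h1 : Real.log (X ^ 5 + 2) ≤ 12 * √X := by
    have e1 : X ^ 5 + 2 ≤ X ^ 6 := by
      have : 1 ≤ X ^ 5 := one_le_pow₀ (by linarith)
      nlinarith
    have e2 : Real.log (X ^ 5 + 2) ≤ Real.log (X ^ 6) := Real.log_le_log (by positivity) e1
    rw [Real.log_pow] at e2
    have e3 := Real.log_le_rpow_div hX0.le (show (0 : ℝ) < 1 / 2 by norm_num)
    rw [← Real.sqrt_eq_rpow] at e3
    push_cast at e2
    linarith
  have h2 : Real.log 8 ≤ 3 := by
    have e1 : Real.log 8 = 3 * Real.log 2 := by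
      rw [show (8 : ℝ) = 2 ^ 3 by norm_num, Real.log_pow]
      push_cast
      ring
    have := Real.log_two_lt_d9
    linarith
  have h3 : 48 * C0 + 8 ≤ √X := Real.le_sqrt_of_sq_le hX
  have h4 : √X * √X = X := Real.mul_self_sqrt hX0.le
  have h5 : C0 * Real.log (X ^ 5 + 2) ≤ C0 * (12 * √X) := mul_le_mul_of_nonneg_left h1 hc
  have h6 : (48 * C0 + 8) * √X ≤ √X * √X := mul_le_mul_of_nonneg_right h3 (Real.sqrt_nonneg _)
  have h7 : 8 ≤ √X := by linarith
  nlinarith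

private theorem Num2_main (k n X b t T : ℝ) (hk : 0 ≤ k) (hX : 2 ≤ X) (hn : n = X ^ 5)
    (ht : t = X ^ 3) (hb1 : X ^ 4 ≤ b) (hb2 : b ≤ 2 * X ^ 4)
    (hT : n / ((k + 1) * b + t) - 1 ≤ T) :
    n / (k + 1) - 4 * X ^ 4 ≤ T * (b - t) := by
  have hX0 : 0 < X := by linarith
  have ht0 : 0 < t := by rw [ht]; positivity
  have hb0 : 0 < b := lt_of_lt_of_le (by positivity) hb1
  have hn0 : 0 < n := by rw [hn]; positivity
  have hk1 : 0 < k + 1 := by linarith
  have hD : 0 < (k + 1) * b + t := by positivity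
  have hbt : t ≤ b := by
    refine le_trans ?_ hb1
    rw [ht]
    have : 0 < X ^ 3 := by positivity
    nlinarith
  have h1 : (n / ((k + 1) * b + t) - 1) * (b - t) ≤ T * (b - t) :=
    mul_le_mul_of_nonneg_right hT (by linarith)
  refine le_trans ?_ h1
  have h2 : n / (k + 1) - 2 * X ^ 4 ≤ n / ((k + 1) * b + t) * (b - t) := by
    have e1 : n / ((k + 1) * b + t) * (b - t) = n / (k + 1) -
        n * ((k + 2) * t) / ((k + 1) * ((k + 1) * b + t)) := by
      field_simp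
      ring
    rw [e1]
    have e2 : n * ((k + 2) * t) / ((k + 1) * ((k + 1) * b + t)) ≤ 2 * X ^ 4 := by
      rw [div_le_iff₀ (by positivity)]
      have e3 : n * t = X ^ 4 * X ^ 4 := by rw [hn, ht]; ring
      have e4 : n * t ≤ X ^ 4 * b := by
        rw [e3]
        exact mul_le_mul_of_nonneg_left hb1 (by positivity)
      have e5 : k + 2 ≤ 2 * (k + 1) * (k + 1) := by nlinarith
      have e6 : (0 : ℝ) < X ^ 4 := by positivity
      have e7 : n * ((k + 2) * t) = (k + 2) * (n * t) := by ring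
      have e8 : (k + 2) * (n * t) ≤ (2 * (k + 1) * (k + 1)) * (X ^ 4 * b) :=
        mul_le_mul e5 e4 (by positivity) (by positivity)
      have e9 : 2 * X ^ 4 * ((k + 1) * ((k + 1) * b + t)) =
        (2 * (k + 1) * (k + 1)) * (X ^ 4 * b) + 2 * X ^ 4 * ((k + 1) * t) := by ring
      have e10 : 0 ≤ 2 * X ^ 4 * ((k + 1) * t) := by positivity
      rw [e7, e9]
      linarith
    linarith
  have h3 : (n / ((k + 1) * b + t) - 1) * (b - t) = n / ((k + 1) * b + t) * (b - t) - (b - t) := by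
    ring
  rw [h3]
  linarith

private theorem Num2_last (k n X b t T δ : ℝ) (hk : 0 ≤ k) (hδ : 0 < δ) (hδ1 : δ ≤ 1) (hn : n = X ^ 5)
    (ht : t = X ^ 3) (hb1 : X ^ 4 ≤ b) (hb2 : b ≤ 2 * X ^ 4) (hX : (8 * k + 14) / δ < X)
    (hT : n / ((k + 1) * b + t) - 1 ≤ T) :
    (1 - δ) * (n / (k + 1)) / T + t < b := by
  have hXk : 8 * k + 14 < X := by
    have : 8 * k + 14 ≤ (8 * k + 14) / δ := by
      rw [le_div_iff₀ hδ]
      nlinarith
    linarith
  have hX0 : 0 < X := by linarith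
  have ht0 : 0 < t := by rw [ht]; positivity
  have hb0 : 0 < b := lt_of_lt_of_le (by positivity) hb1
  have hn0 : 0 < n := by rw [hn]; positivity
  have hk1 : 0 < k + 1 := by linarith
  have hD : 0 < (k + 1) * b + t := by positivity
  have hbX : X * t ≤ b := by
    refine le_trans (le_of_eq ?_) hb1
    rw [ht]
    ring
  have hT1 : X / (4 * k + 6) ≤ T := by
    refine le_trans ?_ hT
    have e1 : (k + 1) * b + t ≤ (2 * k + 3) * X ^ 4 := by
      have e2 : (k + 1) * b ≤ (k + 1) * (2 * X ^ 4) := mul_le_mul_of_nonneg_left hb2 hk1.le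
      have e3 : t ≤ X ^ 4 := by
        rw [ht]
        have : 0 < X ^ 3 := by positivity
        nlinarith
      nlinarith
    have e4 : X / (2 * k + 3) ≤ n / ((k + 1) * b + t) := by
      rw [div_le_div_iff₀ (by linarith) hD, hn]
      calc X * ((k + 1) * b + t) ≤ X * ((2 * k + 3) * X ^ 4) := mul_le_mul_of_nonneg_left e1 hX0.le
        _ = X ^ 5 * (2 * k + 3) := by ring
    have e5 : X / (2 * k + 3) = 2 * (X / (4 * k + 6)) := by
      field_simp
      ring
    have e6 : 1 ≤ X / (4 * k + 6) := by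
      rw [le_div_iff₀ (by linarith)]
      linarith
    linarith
  have hT0 : 0 < T := lt_of_lt_of_le (by positivity) hT1
  have hN : n / (k + 1) ≤ (T + 1) * (b + t) := by
    have e1 : n ≤ (T + 1) * ((k + 1) * b + t) := by
      have : n / ((k + 1) * b + t) ≤ T + 1 := by linarith
      exact (div_le_iff₀ hD).1 this
    rw [div_le_iff₀ hk1]
    have e2 : (k + 1) * b + t ≤ (b + t) * (k + 1) := by nlinarith
    calc n ≤ (T + 1) * ((k + 1) * b + t) := e1
      _ ≤ (T + 1) * ((b + t) * (k + 1)) := mul_le_mul_of_nonneg_left e2 (by linarith)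
      _ = (T + 1) * (b + t) * (k + 1) := by ring
  have h1 : (1 - δ) * (n / (k + 1)) / T ≤ (1 - δ) * (b + t) + (b + t) / T := by
    rw [div_le_iff₀ hT0]
    have e1 : (1 - δ) * (n / (k + 1)) ≤ (1 - δ) * ((T + 1) * (b + t)) :=
      mul_le_mul_of_nonneg_left hN (by linarith)
    have e2 : ((1 - δ) * (b + t) + (b + t) / T) * T = (1 - δ) * (b + t) * T + (b + t) := by
      field_simp
    rw [e2]
    have e3 : (1 - δ) * (b + t) ≤ 1 * (b + t) := mul_le_mul_of_nonneg_right (by linarith) (by linarith)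
    nlinarith
  have h2 : (b + t) / T ≤ b * (8 * k + 12) / X := by
    rw [div_le_div_iff₀ hT0 hX0]
    have e1 : X ≤ T * (4 * k + 6) := (div_le_iff₀ (by linarith)).1 hT1
    have e2 : b + t ≤ 2 * b := by
      have : 1 * t ≤ X * t := mul_le_mul_of_nonneg_right (by linarith) ht0.le
      linarith
    calc (b + t) * X ≤ (2 * b) * (T * (4 * k + 6)) := mul_le_mul e2 e1 hX0.le (by linarith)
      _ = b * (8 * k + 12) * T := by ring
  have h3 : 2 * t ≤ b * 2 / X := by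
    rw [le_div_iff₀ hX0]
    linarith
  have h4 : b * (8 * k + 12) / X + b * 2 / X < δ * b := by
    rw [← add_div, div_lt_iff₀ hX0]
    have e1 : 8 * k + 14 < X * δ := (div_lt_iff₀ hδ).1 hX
    have e2 : b * (8 * k + 14) < b * (X * δ) := mul_lt_mul_of_pos_left e1 hb0
    linarith
  have h5 : (1 - δ) * (b + t) ≤ b - δ * b + t := by
    have : 0 ≤ δ * t := by positivity
    linarith
  linarith

theorem tNum2 : S_Num2 := by
  intro k C0 δ hδ hδ1
  refine ⟨(48 * C0 + 8 : ℝ) ^ 2 + (8 * k + 14) / δ, by positivity, ?_⟩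
  intro n r hr hrn
  have hc : (0 : ℝ) ≤ C0 := Nat.cast_nonneg _
  have hk : (0 : ℝ) ≤ k := Nat.cast_nonneg _
  have hr2 : (1 : ℝ) ≤ r := by exact_mod_cast hr
  obtain ⟨X, hX⟩ : ∃ X : ℝ, X = (n : ℝ) ^ (1 / 5 : ℝ) := ⟨_, rfl⟩
  obtain ⟨C, hC⟩ : ∃ C : ℝ, C = (48 * C0 + 8 : ℝ) ^ 2 + (8 * k + 14) / δ := ⟨_, rfl⟩
  rw [← hC] at hrn
  have hdk : 0 ≤ (8 * (k : ℝ) + 14) / δ := by positivity
  have hC1 : (48 * C0 + 8 : ℝ) ^ 2 ≤ C := by linarith
  have hC2 : (8 * (k : ℝ) + 14) / δ ≤ C := by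
    have : (0 : ℝ) ≤ (48 * C0 + 8 : ℝ) ^ 2 := by positivity
    linarith
  have hC64 : 64 ≤ C := by nlinarith
  have hn0 : (0 : ℝ) ≤ n := Nat.cast_nonneg _
  have hX0 : 0 ≤ X := by rw [hX]; positivity
  have hX5 : X ^ 5 = n := by
    rw [hX, ← Real.rpow_natCast, ← Real.rpow_mul hn0]
    norm_num
  have hX4 : (n : ℝ) ^ (4 / 5 : ℝ) = X ^ 4 := by
    rw [hX, ← Real.rpow_natCast, ← Real.rpow_mul hn0]
    norm_num
  rw [hX4] at hrn
  have hdiv : (n : ℝ) / (k + 1) ≤ n := div_le_self hn0 (by linarith)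
  have hXC : C < X := by
    have e1 : C * X ^ 4 < X * X ^ 4 := by
      have : X * X ^ 4 = n := by rw [← hX5]; ring
      linarith
    by_contra hcon
    push Not at hcon
    have e2 : X * X ^ 4 ≤ C * X ^ 4 := mul_le_mul_of_nonneg_right hcon (by positivity)
    linarith
  have hX1 : 1 ≤ X := by linarith
  have hXp : 0 < X := by linarith
  obtain ⟨a, ha1, ha2⟩ := exists_nat_pow_near (show (1 : ℝ) ≤ X ^ 4 from one_le_pow₀ hX1)
    (show (1 : ℝ) < 2 by norm_num)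
  have hb1 : X ^ 4 ≤ (2 : ℝ) ^ (a + 1) := ha2.le
  have hb2 : (2 : ℝ) ^ (a + 1) ≤ 2 * X ^ 4 := by
    rw [pow_succ]
    linarith
  obtain ⟨T, hT⟩ : ∃ T : ℕ, T = ⌊(n : ℝ) / ((k + 1) * (2 : ℝ) ^ (a + 1) + X ^ 3)⌋₊ := ⟨_, rfl⟩
  have hD : 0 < ((k : ℝ) + 1) * (2 : ℝ) ^ (a + 1) + X ^ 3 := by positivity
  have hT1 : (n : ℝ) / ((k + 1) * (2 : ℝ) ^ (a + 1) + X ^ 3) - 1 ≤ T := by
    have := Nat.lt_floor_add_one ((n : ℝ) / ((k + 1) * (2 : ℝ) ^ (a + 1) + X ^ 3))
    rw [← hT] at this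
    linarith
  have hT2 : (T : ℝ) ≤ (n : ℝ) / ((k + 1) * (2 : ℝ) ^ (a + 1) + X ^ 3) := by
    rw [hT]
    exact Nat.floor_le (by positivity)
  have hlast := Num2_last k n X ((2 : ℝ) ^ (a + 1)) (X ^ 3) T δ hk hδ hδ1 hX5.symm rfl hb1 hb2
    (lt_of_le_of_lt hC2 hXC) hT1
  have hm := Num2_main k n X ((2 : ℝ) ^ (a + 1)) (X ^ 3) T hk (by linarith) hX5.symm rfl hb1 hb2 hT1
  have hX40 : 0 ≤ X ^ 4 := by positivity
  have hfin : (r : ℝ) ≤ T * ((2 : ℝ) ^ (a + 1) - X ^ 3) := by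
    have : 4 * X ^ 4 ≤ C * X ^ 4 := mul_le_mul_of_nonneg_right (by linarith) hX40
    linarith
  refine ⟨T, a + 1, X ^ 3, ?_, by positivity, ?_, ?_, ?_, ?_, ?_⟩
  · rcases Nat.eq_zero_or_pos T with h | h
    · rw [h] at hfin
      push_cast at hfin
      rw [zero_mul] at hfin
      linarith
    · exact h
  · rw [← hX5]
    have e1 : X ^ 3 * 1 ≤ X ^ 3 * X ^ 2 :=
      mul_le_mul_of_nonneg_left (one_le_pow₀ hX1) (by positivity)
    have e2 : X ^ 3 * X ^ 2 = X ^ 5 := by ring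
    have e3 : 0 ≤ X ^ 5 := by positivity
    linarith
  · have e1 := Num2_log C0 X (hC1.trans hXC.le)
    rw [hX5] at e1
    have e2 : (X ^ 3) ^ 2 = n * X := by rw [← hX5]; ring
    rw [e2]
    have e3 : (n : ℝ) * (4 * (Real.log 8 + C0 * Real.log (n + 2))) ≤ n * X :=
      mul_le_mul_of_nonneg_left e1 hn0
    linarith
  · push_cast
    exact (le_div_iff₀ hD).1 hT2
  · push_cast
    exact hfin
  · push_cast
    exact hlast

end Pool.Agent.Lib.MP_c05127_co.AS
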