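import Pool.Agent.Lib.MP_c05127_co.AS.Spec

/-!
# PROJECT AS, module Per: one family
-/

set_option autoImplicit false

open Finset

namespace Pool.Agent.Lib.MP_c05127_co.AS

open Pool.Agent.Lib.MP_c05127_co.Brief

private theorem Per_mono {α : Type} {cap : Finset α → Prop} {r : ℕ} {B A : Finset α} (h : B ⊆ A)
    (hP : Pk cap r B) : Pk cap r A := by
  obtain ⟨P, h1, h2, h3⟩ := hP
  exact ⟨P, h1, fun j => (h2 j).trans h, h3⟩

private theorem Per_empty {d k : ℕ} (hk : 1 ≤ k) (L : Sub d) (q : E d) (hL : dim L = k) :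
    ¬ 1 ≤ RD (∅ : Finset (Aff d)) q L := by
  have hL0 : L ≠ ⊥ := by
    rintro rfl
    unfold dim at hL
    rw [finrank_bot] at hL
    omega
  obtain ⟨v, hv, hv0⟩ := Submodule.exists_mem_ne_zero_of_ne_bot hL0
  have h0 : RD (∅ : Finset (Aff d)) q L = 0 := by
    unfold RD
    rw [Nat.sInf_eq_zero]
    left
    refine ⟨v, hv, hv0, ?_⟩
    rw [Finset.filter_empty, Finset.card_empty]
  omega

private theorem Per_log {M n C0 : ℕ} (h : M ≤ (n + 2) ^ C0) :
    Real.log (4 * M) ≤ Real.log 4 + C0 * Real.log (n + 2) := by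
  have h4 : 0 ≤ Real.log 4 := Real.log_nonneg (by norm_num)
  have hn : 0 ≤ Real.log ((n : ℝ) + 2) := Real.log_nonneg (by
    have : (0 : ℝ) ≤ n := Nat.cast_nonneg n
    linarith)
  have hn2 : (0 : ℝ) < (n : ℝ) + 2 := by positivity
  rcases Nat.eq_zero_or_pos M with h0 | h0
  · subst h0
    rw [Nat.cast_zero, mul_zero, Real.log_zero]
    positivity
  · have hM : (0 : ℝ) < M := by exact_mod_cast h0
    rw [Real.log_mul (by norm_num) hM.ne']
    have h1 : (M : ℝ) ≤ ((n : ℝ) + 2) ^ C0 := by exact_mod_cast h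
    have h2 := Real.log_le_log hM h1
    rw [Real.log_pow] at h2
    linarith

theorem tPer : S_Per := by
  intro hMc hNu hKey hTy hFM hPol hSg hVC hCp hNum d k hk
  classical
  obtain ⟨C0, hC0⟩ := hTy hFM hPol hSg hVC hCp d k hk
  obtain ⟨C, hC, hN⟩ := hNum k C0
  refine ⟨C, hC, fun A r hA hA1 hr => ?_⟩
  rcases hr with rfl | ⟨hr2, hr⟩
  · obtain ⟨h, hh⟩ := Finset.card_pos.1 hA1
    refine ⟨{h}, 0, Finset.singleton_subset_iff.2 hh, by simp, fun L q _ _ hP => ?_⟩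
    rw [pow_zero] at hP
    exact Per_mono (Finset.singleton_subset_iff.2 hh) hP
  · obtain ⟨T, a, t, hT, ht0, ht2, hlog, hsize, hrT⟩ := hN A.card r hr2 hr
    obtain ⟨F, hF, hFS⟩ := hC0 A hA
    obtain ⟨B, hBA, hBs, hB⟩ := hKey hMc hNu (Aff d) A
      {cap | ∃ (L : Sub d) (q : E d), dim L = k ∧ In L q ∧ cap = fun S => 1 ≤ RD S q L}
      F T (2 ^ a) ((k + 1) * 2 ^ a) t
      (by
        rintro cap ⟨L, q, hL, _, rfl⟩
        exact Per_empty hk L q hL)
      (by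
        rintro cap ⟨L, q, hL, hq, rfl⟩
        exact hFS L q hL hq)
      hT ht0 ht2
      (by
        refine le_trans ?_ hlog
        exact mul_le_mul_of_nonneg_left (Per_log hF) (by positivity))
      hsize
    have hcard : (k + 1) * (2 ^ a - 1) + 1 ≤ B.card := by
      have h1 : 1 ≤ 2 ^ a := Nat.one_le_two_pow
      have h2 : (k + 1) * (2 ^ a - 1) + (k + 1) = (k + 1) * 2 ^ a := by
        rw [← Nat.mul_succ, Nat.succ_eq_add_one, Nat.sub_add_cancel h1]
      omega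
    obtain ⟨B', hB'B, hB'c⟩ := Finset.exists_subset_card_eq hcard
    refine ⟨B', a, hB'B.trans hBA, hB'c, fun L q hL hq hP => ?_⟩
    obtain ⟨hnu1, hnu2, _⟩ := hNu (Aff d) (fun S => 1 ≤ RD S q L) (Per_empty hk L q hL)
    have h1 : 2 ^ a ≤ nu (fun S => 1 ≤ RD S q L) B :=
      ((hnu1 _ _).2 hP).trans (hnu2 _ _ hB'B)
    have h2 := hB (fun S => 1 ≤ RD S q L) ⟨L, q, hL, hq, rfl⟩ h1
    refine (hnu1 _ _).1 ?_
    have h3 : (r : ℝ) ≤ nu (fun S => 1 ≤ RD S q L) A := hrT.trans h2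
    exact_mod_cast h3

end Pool.Agent.Lib.MP_c05127_co.AS
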