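import Pool.Agent.Lib.MP_c05127_co.AS.SpecB

/-!
# PROJECT AS, module Per3: one family, with the sets of parallel members, sharp form (helper44, helper95)
-/

set_option autoImplicit false

open Finset

namespace Pool.Agent.Lib.MP_c05127_co.AS

open Pool.Agent.Lib.MP_c05127_co.Brief

private theorem Per3_mono {α : Type} {cap : Finset α → Prop} {r : ℕ} {B A : Finset α} (h : B ⊆ A)
    (hP : Pk cap r B) : Pk cap r A := by
  obtain ⟨P, h1, h2, h3⟩ := hP
  exact ⟨P, h1, fun j => (h2 j).trans h, h3⟩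

private theorem Per3_empty {d k : ℕ} (hk : 1 ≤ k) (L : Sub d) (q : E d) (hL : dim L = k) :
    ¬ 1 ≤ RD (∅ : Finset (Aff d)) q L := by
  have hL0 : L ≠ ⊥ := by
    rintro rfl
    unfold dim at hL
    rw [finrank_bot] at hL
    omega
  obtain ⟨v, hv, hv0⟩ := Submodule.exists_mem_ne_zero_of_ne_bot hL0
  have h0 : RD (∅ : Finset (Aff d)) q L = 0 := by
    unfold RD
    rw [Nat.sInf_eq_zero]
    left
    refine ⟨v, hv, hv0, ?_⟩
    rw [Finset.filter_empty, Finset.card_empty]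
  omega

private theorem Per3_log {M M' n C1 C2 : ℕ} (h : M ≤ (n + 2) ^ C1) (h' : M' ≤ (n + 2) ^ C2) :
    Real.log (4 * ((M : ℝ) + M')) ≤
      Real.log 4 + ((max C1 C2 + 1 : ℕ) : ℝ) * Real.log (n + 2) := by
  have h4 : 0 ≤ Real.log 4 := Real.log_nonneg (by norm_num)
  have hn : 0 ≤ Real.log ((n : ℝ) + 2) := Real.log_nonneg (by
    have : (0 : ℝ) ≤ n := Nat.cast_nonneg n
    linarith)
  have h1 : M ≤ (n + 2) ^ (max C1 C2) :=
    h.trans (Nat.pow_le_pow_right (by omega) (le_max_left _ _))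
  have h2 : M' ≤ (n + 2) ^ (max C1 C2) :=
    h'.trans (Nat.pow_le_pow_right (by omega) (le_max_right _ _))
  have h3 : M + M' ≤ (n + 2) ^ (max C1 C2 + 1) := by
    rw [pow_succ]
    have h5 : (n + 2) ^ (max C1 C2) * 2 ≤ (n + 2) ^ (max C1 C2) * (n + 2) :=
      Nat.mul_le_mul_left _ (by omega)
    omega
  rcases Nat.eq_zero_or_pos (M + M') with h0 | h0
  · have h3 : (M : ℝ) + M' = 0 := by exact_mod_cast h0
    rw [h3, mul_zero, Real.log_zero]
    positivity
  · have hM : (0 : ℝ) < 4 * ((M : ℝ) + M') := by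
      have : (0 : ℝ) < (M : ℝ) + M' := by exact_mod_cast h0
      linarith
    have h3' : (M : ℝ) + M' ≤ ((n : ℝ) + 2) ^ (max C1 C2 + 1) := by exact_mod_cast h3
    have h5 := Real.log_le_log hM (mul_le_mul_of_nonneg_left h3' (by norm_num : (0 : ℝ) ≤ 4))
    have h6 : Real.log (4 * ((n : ℝ) + 2) ^ (max C1 C2 + 1)) =
        Real.log 4 + ((max C1 C2 + 1 : ℕ) : ℝ) * Real.log (n + 2) := by
      rw [Real.log_mul (by norm_num) (by positivity), Real.log_pow]
    exact h5.trans h6.le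

open Classical in
/-- **Per3** (one family, sharp form). -/
def S_Per3 : Prop := ∀ d k : ℕ, 1 ≤ k → ∃ C : ℝ, 0 < C ∧
  ∀ (A : Finset (Aff d)) (r : ℕ), IsArr A →
    ((∃ e, r = 2 ^ e ∧ (k + 1) * (r - 1) + 1 ≤ A.card) ∨
      (1 ≤ r ∧ (r : ℝ) ≤ A.card / (k + 1) - C * (A.card : ℝ) ^ (4 / 5 : ℝ))) →
    ∃ (B : Finset (Aff d)) (a : ℕ), B ⊆ A ∧ B.card = (k + 1) * (2 ^ a - 1) + 1 ∧
      (∀ (L : Sub d) (q : E d), dim L = k → In L q →
        Pk (fun S => 1 ≤ RD S q L) (2 ^ a) B → Pk (fun S => 1 ≤ RD S q L) r A) ∧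
      ∀ u : E d, (A.filter fun h => In (dir h) u).card < r →
        (B.filter fun h => In (dir h) u).card < 2 ^ a

open Classical in
private theorem Per3_two {d k : ℕ} {A : Finset (Aff d)} {e : ℕ}
    (hcard : (k + 1) * (2 ^ e - 1) + 1 ≤ A.card) :
    ∃ (B : Finset (Aff d)) (a : ℕ), B ⊆ A ∧ B.card = (k + 1) * (2 ^ a - 1) + 1 ∧
      (∀ (L : Sub d) (q : E d), dim L = k → In L q →
        Pk (fun S => 1 ≤ RD S q L) (2 ^ a) B → Pk (fun S => 1 ≤ RD S q L) (2 ^ e) A) ∧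
      ∀ u : E d, (A.filter (fun h => In (dir h) u)).card < 2 ^ e →
        (B.filter (fun h => In (dir h) u)).card < 2 ^ a := by
  classical
  obtain ⟨B, hBA, hBc⟩ := Finset.exists_subset_card_eq hcard
  refine ⟨B, e, hBA, hBc, fun L q _ _ hP => Per3_mono hBA hP, fun u hu => ?_⟩
  exact lt_of_le_of_lt (Finset.card_le_card (Finset.filter_subset_filter _ hBA)) hu

theorem tPer3 (hMc : S_Mc) (hNu : S_Nu) (hKey : S_Key2) (hTy : S_Ty) (hFM : S_FM) (hPol : S_Pol)
    (hSg : S_Sg) (hVC : S_VC) (hCp : S_Cp) (hNd : S_Nd) (hNum : S_Num) : S_Per3 := by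
  intro d k hk
  classical
  obtain ⟨C1, hC1⟩ := hTy hFM hPol hSg hVC hCp d k hk
  obtain ⟨C2, hC2⟩ := hNd hPol hVC d
  obtain ⟨C, hC, hN⟩ := hNum k (max C1 C2 + 1)
  refine ⟨C, hC, fun A r hA hr => ?_⟩
  rcases hr with ⟨e, rfl, hcard⟩ | ⟨hr1, hr⟩
  · exact Per3_two hcard
  rcases Nat.eq_or_lt_of_le hr1 with rfl | hr2
  · have hc : 1 ≤ A.card := by
      rcases Nat.eq_zero_or_pos A.card with h0 | h0
      · rw [h0] at hr
        norm_num at hr
      · exact h0
    have h1 := Per3_two (d := d) (k := k) (A := A) (e := 0) (by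
      rw [pow_zero]
      omega)
    rw [pow_zero] at h1
    exact h1
  · obtain ⟨T, a, t, hT, ht0, ht2, hlog, hsize, hrT⟩ := hN A.card r hr2 hr
    obtain ⟨F, hF, hFS⟩ := hC1 A hA
    obtain ⟨G, hG, hGS⟩ := hC2 A hA
    obtain ⟨B, hBA, hBs, hB, hBG⟩ := hKey hMc hNu (Aff d) A
      {cap | ∃ (L : Sub d) (q : E d), dim L = k ∧ In L q ∧ cap = fun S => 1 ≤ RD S q L}
      F G T (2 ^ a) ((k + 1) * 2 ^ a) t
      (by
        rintro cap ⟨L, q, hL, _, rfl⟩
        exact Per3_empty hk L q hL)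
      (by
        rintro cap ⟨L, q, hL, hq, rfl⟩
        exact hFS L q hL hq)
      hT ht0 ht2
      (by
        refine le_trans ?_ hlog
        exact mul_le_mul_of_nonneg_left (Per3_log hF hG) (by positivity))
      hsize
    have hcard : (k + 1) * (2 ^ a - 1) + 1 ≤ B.card := by
      have h1 : 1 ≤ 2 ^ a := Nat.one_le_two_pow
      have h2 : (k + 1) * (2 ^ a - 1) + (k + 1) = (k + 1) * 2 ^ a := by
        rw [← Nat.mul_succ, Nat.succ_eq_add_one, Nat.sub_add_cancel h1]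
      omega
    obtain ⟨B', hB'B, hB'c⟩ := Finset.exists_subset_card_eq hcard
    refine ⟨B', a, hB'B.trans hBA, hB'c, fun L q hL hq hP => ?_, fun u hu => ?_⟩
    · obtain ⟨hnu1, hnu2, _⟩ := hNu (Aff d) (fun S => 1 ≤ RD S q L) (Per3_empty hk L q hL)
      have h1 : 2 ^ a ≤ nu (fun S => 1 ≤ RD S q L) B :=
        ((hnu1 _ _).2 hP).trans (hnu2 _ _ hB'B)
      have h2 := hB (fun S => 1 ≤ RD S q L) ⟨L, q, hL, hq, rfl⟩ h1
      refine (hnu1 _ _).1 ?_
      have h3 : (r : ℝ) ≤ nu (fun S => 1 ≤ RD S q L) A := hrT.trans h2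
      exact_mod_cast h3
    · have h1 := hBG _ (hGS u) (Finset.filter_subset _ _)
      have h2 : (B'.filter fun h => In (dir h) u).card ≤
          (B ∩ A.filter fun h => In (dir h) u).card := by
        refine Finset.card_le_card fun h hh => ?_
        rw [Finset.mem_filter] at hh
        rw [Finset.mem_inter, Finset.mem_filter]
        exact ⟨hB'B hh.1, hBA (hB'B hh.1), hh.2⟩
      have h2' : ((B'.filter fun h => In (dir h) u).card : ℝ) ≤
          (B ∩ A.filter fun h => In (dir h) u).card := by exact_mod_cast h2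
      have hT' : (0 : ℝ) < T := by exact_mod_cast hT
      have hu' : ((A.filter fun h => In (dir h) u).card : ℝ) < r := by exact_mod_cast hu
      have h5 : ((A.filter fun h => In (dir h) u).card : ℝ) / T < (2 ^ a : ℕ) - t := by
        rw [div_lt_iff₀ hT']
        calc ((A.filter fun h => In (dir h) u).card : ℝ) < r := hu'
          _ ≤ T * ((2 ^ a : ℕ) - t) := hrT
          _ = ((2 ^ a : ℕ) - t) * T := mul_comm _ _
      have h6 : ((B'.filter fun h => In (dir h) u).card : ℝ) < ((2 ^ a : ℕ) : ℝ) := by linarith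
      exact_mod_cast h6

end Pool.Agent.Lib.MP_c05127_co.AS
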