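import Pool.Agent.Lib.MP_c05127_co.AS.Spec

/-!
# PROJECT AS (MP_c05127_co).  Module Sg (the type is determined by signs of polynomials)
-/

set_option autoImplicit false

open Finset

namespace Pool.Agent.Lib.MP_c05127_co.AS

open Pool.Agent.Lib.MP_c05127_co.Brief

open Classical in
/-- The index set of the derived system. -/
private noncomputable def Sg_T {ι : Type} (S : Finset ι) (g : ι → ℝ) : Finset (ι ⊕ ι × ι) :=
  (S.filter fun h => g h = 0).image Sum.inl ∪
    ((S ×ˢ S).filter fun p => 0 < g p.1 ∧ g p.2 < 0).image Sum.inr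

private theorem Sg_Teq {ι : Type} (S : Finset ι) (g g' : ι → ℝ)
    (h : ∀ i, SignType.sign (g i) = SignType.sign (g' i)) : Sg_T S g = Sg_T S g' := by
  have e1 : ∀ i, (g i = 0 ↔ g' i = 0) := fun i => by
    rw [← sign_eq_zero_iff (a := g i), ← sign_eq_zero_iff (a := g' i), h i]
  have e2 : ∀ i, (0 < g i ↔ 0 < g' i) := fun i => by
    rw [← sign_eq_one_iff (a := g i), ← sign_eq_one_iff (a := g' i), h i]
  have e3 : ∀ i, (g i < 0 ↔ g' i < 0) := fun i => by
    rw [← sign_eq_neg_one_iff (a := g i), ← sign_eq_neg_one_iff (a := g' i), h i]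
  unfold Sg_T
  simp only [e1, e2, e3]

private theorem Sg_pow (a n : ℕ) (ha : 1 ≤ a) : ∀ p : ℕ, 1 ≤ p → n + a ^ p ≤ (a + n) ^ p := by
  intro p hp
  induction p, hp using Nat.le_induction with
  | base => rw [pow_one, pow_one, add_comm]
  | succ p hp ih =>
    have h1 : 1 ≤ a ^ p := Nat.one_le_pow _ _ ha
    calc n + a ^ (p + 1) ≤ (n + a ^ p) * (a + n) := by
          rw [pow_succ]
          nlinarith [Nat.mul_le_mul_left n h1]
      _ ≤ (a + n) ^ p * (a + n) := Nat.mul_le_mul_right _ ih
      _ = (a + n) ^ (p + 1) := (pow_succ _ _).symm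

/-- The derived functions. -/
private def Sg_F {σ ι : Type} {k : ℕ} (F : ι → Fin (k + 1) → (σ → ℝ) → ℝ) :
    ι ⊕ ι × ι → Fin k → (σ → ℝ) → ℝ
  | Sum.inl h => fun j => F h j.succ
  | Sum.inr p => fun j x => F p.1 0 x * F p.2 j.succ x - F p.2 0 x * F p.1 j.succ x

private theorem Sg_der {σ ι : Type} {k : ℕ} (F : ι → Fin (k + 1) → (σ → ℝ) → ℝ) (x : σ → ℝ) :
    der (fun h j => F h j x) = fun h j => Sg_F F h j x := by
  funext h j
  rcases h with h | p
  · rfl
  · rfl

theorem tSg : S_Sg := by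
  intro hFM hPol σ _ _ k
  obtain ⟨-, -, hmono, hadd, hsmul, hmul⟩ := hPol σ
  induction k with
  | zero =>
    intro m ι _ F _
    refine ⟨Empty, inferInstance, fun e => e.elim, ?_, fun e => e.elim, ?_⟩
    · rw [Fintype.card_empty]
      exact Nat.zero_le _
    · intro x x' _ S
      have he : (fun (h : ι) (j : Fin 0) => F h j x) = fun (h : ι) (j : Fin 0) => F h j x' := by
        funext h j
        exact j.elim0
      rw [he]
  | succ k ih =>
    intro m ι _ F hF
    have hF' : ∀ h j, Pol (2 * m) (Sg_F F h j) := by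
      intro h j
      rcases h with h | p
      · exact hmono m (2 * m) _ (by omega) (hF h j.succ)
      · have h1 : Pol (m + m) fun x => F p.1 0 x * F p.2 j.succ x := hmul m m _ _ (hF _ _) (hF _ _)
        have h2 : Pol (m + m) fun x => F p.2 0 x * F p.1 j.succ x := hmul m m _ _ (hF _ _) (hF _ _)
        have h3 := hadd (m + m) _ _ h1 (hsmul (m + m) (-1) _ h2)
        have h4 : (Sg_F F (Sum.inr p) j) = fun x => F p.1 0 x * F p.2 j.succ x +
            (-1) * (F p.2 0 x * F p.1 j.succ x) := by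
          funext x
          change F p.1 0 x * F p.2 j.succ x - F p.2 0 x * F p.1 j.succ x = _
          ring
        rw [h4, two_mul]
        exact h3
    obtain ⟨J', hJ', Q', hcard, hQ', hx⟩ := ih (2 * m) (ι ⊕ ι × ι) (Sg_F F) hF'
    refine ⟨ι ⊕ J', inferInstance, Sum.elim (fun h => F h 0) Q', ?_, ?_, ?_⟩
    · rw [Fintype.card_sum]
      rw [Fintype.card_sum, Fintype.card_prod] at hcard
      have hp : 1 ≤ 2 ^ k := Nat.one_le_two_pow
      set n := Fintype.card ι
      calc n + Fintype.card J' ≤ n + (n + n * n + 1) ^ (2 ^ k) := by omega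
        _ ≤ ((n + n * n + 1) + n) ^ (2 ^ k) := Sg_pow _ _ (by omega) _ hp
        _ = ((n + 1) ^ 2) ^ (2 ^ k) := by ring_nf
        _ = (n + 1) ^ (2 ^ (k + 1)) := by rw [← pow_mul, pow_succ 2 k, mul_comm 2]
    · intro j
      rcases j with h | j
      · refine hmono m _ _ ?_ (hF h 0)
        exact Nat.le_mul_of_pos_left m (by positivity)
      · have h1 := hQ' j
        have h2 : 2 ^ k * (2 * m) = 2 ^ (k + 1) * m := by ring
        rw [h2] at h1
        exact h1
    · intro x x' hs S
      have h1 : Feas (fun h j => F h j x) S ↔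
          Feas (der (fun h j => F h j x)) (Sg_T S (fun h => F h 0 x)) := hFM ι k _ S
      have h2 : Feas (fun h j => F h j x') S ↔
          Feas (der (fun h j => F h j x')) (Sg_T S (fun h => F h 0 x')) := hFM ι k _ S
      have h3 : Sg_T S (fun h => F h 0 x) = Sg_T S (fun h => F h 0 x') :=
        Sg_Teq S _ _ (fun h => hs (Sum.inl h))
      rw [h1, h2, h3, Sg_der, Sg_der]
      exact hx x x' (fun j => hs (Sum.inr j)) _

end Pool.Agent.Lib.MP_c05127_co.AS
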