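import Mathlib
import Pool.Agent.Lib.MP_c05127_co.PP.Brief

/-!
# PROJECT AS (MP_c05127_co): Q1 asymptotically for all `k`, `d` and all `r i` (note 5329)

RULES.  Module `X`: file `Pool/Agent/Lib/MP_c05127_co/AS/X.lean`, first line
`import Pool.Agent.Lib.MP_c05127_co.AS.Spec`, namespace `Pool.Agent.Lib.MP_c05127_co.AS`, auxiliary lemmas
private (names starting with `X_`), final theorem `theorem tX : S_X`.  Statements which are used are
hypotheses INSIDE `S_X` (`S_A → S_B → ...`), so all modules are independent and import only this file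
(`Cp` imports also `Pool.Agent.Lib.MP_c05127_co.Hyp`).
No sorry, no native_decide, no straight double quotes.
-/

set_option autoImplicit false

open Finset

namespace Pool.Agent.Lib.MP_c05127_co.AS

open Pool.Agent.Lib.MP_c05127_co.Brief

/-! ### Packings -/

/-- `B` contains `r` disjoint captured sets. -/
def Pk {α : Type} (cap : Finset α → Prop) (r : ℕ) (B : Finset α) : Prop :=
  ∃ P : Fin r → Finset α, (∀ j j', j ≠ j' → Disjoint (P j) (P j')) ∧ (∀ j, P j ⊆ B) ∧ ∀ j, cap (P j)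

open Classical in
/-- The largest number of disjoint captured subsets of `B`. -/
noncomputable def nu {α : Type} (cap : Finset α → Prop) (B : Finset α) : ℕ :=
  Nat.findGreatest (fun r => Pk cap r B) B.card

/-- The mean value. -/
noncomputable def av {Ω : Type} [Fintype Ω] (f : Ω → ℝ) : ℝ := (∑ ω, f ω) / Fintype.card Ω

/-- **Nu** (properties of `nu`).  `cap ∅` is false, so captured sets are not empty and disjoint captured
sets `P j ⊆ B` are at most `B.card` many (choose an element of each: an injection `Fin r → B`).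

(1) `Nat.findGreatest`: `Pk cap r B` is monotone in `r` from above (restrict `P` along `Fin.castLE`), true for
`r = 0`, and `Pk cap r B → r ≤ B.card`.  (2) by (1).  (3) from `P : Fin r → _` for `insert h B` at most one
`P j` contains `h`; drop it (for `r = r' + 1` use `Fin.succAbove j₀`; if none contains `h`, drop any).
(4) with `r t = nu cap (B t)` packings `P t : Fin (r t) → _`; the sigma type `Σ t, Fin (r t)` has
`∑ t, r t` elements (`finSigmaFinEquiv`); for different `t` the sets are disjoint because the `B t` are.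
(5) `Pk cap r B ↔ Pk cap' r B`. -/
def S_Nu : Prop := ∀ (α : Type) [DecidableEq α] (cap : Finset α → Prop), ¬ cap ∅ →
  (∀ (r : ℕ) (B : Finset α), r ≤ nu cap B ↔ Pk cap r B) ∧
  (∀ B B' : Finset α, B ⊆ B' → nu cap B ≤ nu cap B') ∧
  (∀ (B : Finset α) (h : α), nu cap (insert h B) ≤ nu cap B + 1) ∧
  (∀ (A : Finset α) (T : ℕ) (B : Fin T → Finset α), (∀ t t', t ≠ t' → Disjoint (B t) (B t')) →
    (∀ t, B t ⊆ A) → ∑ t, nu cap (B t) ≤ nu cap A) ∧
  (∀ (A B : Finset α) (cap' : Finset α → Prop), B ⊆ A → (∀ S, S ⊆ A → (cap S ↔ cap' S)) →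
    nu cap B = nu cap' B)

/-- **Mc** (McDiarmid's inequality, weak constant).

First for `f : (Fin n → Fin T) → ℝ` and `0 ≤ lam ≤ 1`: `∑ ω, exp (lam * (f ω - av f)) ≤ exp (n * lam ^ 2) * T ^ n` by
induction on `n`.  With `Fin.consEquiv` (or `Fin.insertNthEquiv`, or `Fin.snocEquiv`) write `ω = (c, ω')`,
`g ω' = (∑ c, f (c, ω')) / T`; `g` has bounded differences `1` and `av g = av f`;
`|f (c, ω') - g ω'| ≤ 1`, and `exp y ≤ 1 + y + y ^ 2` for `|y| ≤ 1` (`Real.abs_exp_sub_one_sub_id_le`) gives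
`∑ c, exp (lam * (f (c, ω') - g ω')) ≤ T * (1 + lam ^ 2) ≤ T * exp (lam ^ 2)` (the linear terms sum to `0`).
The general `ι` by `Fintype.equivFin`.  Then Markov: the number of `ω` with `av f + t ≤ f ω` is at most
`exp (n * lam ^ 2 - lam * t) * T ^ n`, and `lam = t / (2 n) ≤ 1` gives `exp (- t ^ 2 / (4 n))`.
(`card ι = 0`: then `t = 0` and the right side is `exp 0 * 1`.) -/
def S_Mc : Prop := ∀ (ι : Type) [Fintype ι] [DecidableEq ι] (T : ℕ), 0 < T →
  ∀ f : (ι → Fin T) → ℝ, (∀ ω i c, |f (Function.update ω i c) - f ω| ≤ 1) →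
  ∀ t : ℝ, 0 ≤ t → t ≤ 2 * Fintype.card ι →
  ((univ.filter fun ω => av f + t ≤ f ω).card : ℝ) ≤
    Real.exp (-(t ^ 2 / (4 * Fintype.card ι))) * Fintype.card (ι → Fin T)

/-- **Key** (the key lemma).  `K` is a set of capture predicates, `F` contains all their restrictions to
the subsets of `A`.

`A = ∅`: then `s = 0`, `t = 0`, take `B = ∅` (`nu = 0`, so `b = 0`).  `F = ∅`: then `K` is empty, take `B = A`.
Otherwise put `ι = {x // x ∈ A}` (or use labellings `A → Fin T`), `n = card ι = A.card ≥ 1`, `M = F.card ≥ 1`,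
`B ω c = {x ∈ A | ω x = c}`; `exp (-(t ^ 2 / (4 n))) ≤ 1 / (4 M)` (`Real.exp_log`, `Real.exp_le_exp`).
(i) `f ω = -|B ω 0|` has bounded differences `1` and mean `- n / T ≤ -(s + t)`, so at most a quarter of the
`ω` has `|B ω 0| < s` (`S_Mc`).  The mean: `|B ω 0| = ∑ x, if ω x = 0 then 1 else 0`; or: `∑ c, |B ω c| = n` and
the means of `|B ω c|` are equal for all `c` (permute the labels: `ω ↦ (Equiv.swap 0 c) ∘ ω`).
(ii) for `𝒮 ∈ F` put `cap' S := S ∈ 𝒮 ∧ S ≠ ∅`, `f ω = nu cap' (B ω 0)`: bounded differences `1` by `S_Nu` (2), (3)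
(changing one label changes `B ω 0` by at most one element).  If `av f < b - t` (`𝒮` is bad), at most
`1 / (4 M)` of all `ω` have `b ≤ f ω`.  So at most a quarter of the `ω` has `b ≤ nu cap' (B ω 0)` for some bad `𝒮`.
Take `ω` outside both sets (a quarter plus a quarter is less than all), `B = B ω 0`.
(iii) let `cap ∈ K`, `b ≤ nu cap B`; take its `𝒮`; `nu cap (B' ) = nu cap' B'` for all `B' ⊆ A` (`S_Nu` (5)), so `𝒮` is
not bad: `b - t ≤ av (fun ω => nu cap (B ω 0))`.  This mean is the same for all labels `c`, and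
`∑ c, nu cap (B ω c) ≤ nu cap A` (`S_Nu` (4)); take the mean over `ω`. -/
def S_Key : Prop := S_Mc → S_Nu → ∀ (α : Type) [DecidableEq α] (A : Finset α)
  (K : Set (Finset α → Prop)) (F : Finset (Finset (Finset α))) (T b s : ℕ) (t : ℝ),
  (∀ cap ∈ K, ¬ cap ∅) →
  (∀ cap ∈ K, ∃ 𝒮 ∈ F, ∀ S, S ⊆ A → (cap S ↔ S ∈ 𝒮)) →
  0 < T → 0 ≤ t → t ≤ 2 * A.card → 4 * A.card * Real.log (4 * F.card) ≤ t ^ 2 →
  (T : ℝ) * (s + t) ≤ A.card →
  ∃ B, B ⊆ A ∧ s ≤ B.card ∧ ∀ cap ∈ K, b ≤ nu cap B → (T : ℝ) * (b - t) ≤ nu cap A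

/-! ### The number of types -/

/-- The strict homogeneous linear inequalities `F h · z < 0`, `h ∈ S`, have a solution. -/
def Feas {ι : Type} {k : ℕ} (F : ι → Fin k → ℝ) (S : Finset ι) : Prop :=
  ∃ z : Fin k → ℝ, ∀ h ∈ S, ∑ j, F h j * z j < 0

/-- The derived forms (elimination of the variable `0`). -/
def der {ι : Type} {k : ℕ} (F : ι → Fin (k + 1) → ℝ) : ι ⊕ ι × ι → Fin k → ℝ
  | Sum.inl h => fun j => F h j.succ
  | Sum.inr p => fun j => F p.1 0 * F p.2 j.succ - F p.2 0 * F p.1 j.succ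

open Classical in
/-- **FM** (one step of Fourier-Motzkin elimination).

`Fin.sum_univ_succ`; write `z = Fin.cons ζ z'`.  `→`: restrict `z` to `z' j = z j.succ`; for the pairs
multiply the inequality of `p.2` by `F p.1 0 > 0`, that of `p.1` by `- F p.2 0 > 0` and add.  `←`: given `z'`, put
`g h = ∑ j, F h j.succ * z' j`; one needs `ζ` with `F h 0 * ζ + g h < 0` for `h ∈ S`: for `F h 0 = 0` it is given,
for `F h 0 > 0` it says `ζ < - g h / F h 0`, for `F h 0 < 0` it says `ζ > g h / (- F h 0)`; every lower bound is less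
than every upper bound by the inequality for the pair; finite sets of reals `Lo`, `Up` with `l < u` for all
`l ∈ Lo`, `u ∈ Up` have a `ζ` strictly between (`Finset.exists_between` or max and min; `Finset.Nonempty` cases). -/
def S_FM : Prop := ∀ (ι : Type) (k : ℕ) (F : ι → Fin (k + 1) → ℝ) (S : Finset ι),
  (Feas F S ↔ Feas (der F) ((S.filter fun h => F h 0 = 0).image Sum.inl ∪
    ((S ×ˢ S).filter fun p => 0 < F p.1 0 ∧ F p.2 0 < 0).image Sum.inr))

/-- Polynomial functions of the variables `σ` with exponents at most `m`. -/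
def Pol {σ : Type} [Fintype σ] [DecidableEq σ] (m : ℕ) (f : (σ → ℝ) → ℝ) : Prop :=
  ∃ c : (σ → Fin (m + 1)) → ℝ, ∀ x, f x = ∑ e, c e * ∏ i, x i ^ (e i : ℕ)

/-- **Pol** (closure properties).

Constant `a`: `c = if e = 0 then a else 0`.  Variable: `c = if e = Pi.single i 1 ...` (all exponents `0` except `1` at
`i`).  Sums and multiples: obvious.  `m ≤ m'` and products: the product is
`∑ e, ∑ e', c e * c' e' * ∏ i, x i ^ (e i + e' i)` (`Finset.sum_mul_sum`, `pow_add`, `Finset.prod_mul_distrib`); for the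
map `φ (e, e') = fun i => ⟨e i + e' i, _⟩` put `c'' u = ∑ over the pairs with φ = u` (`Finset.sum_fiberwise`, or
first show that a finite sum of functions `a * ∏ i, x i ^ (u i)`, `u : σ → Fin (m + 1)`, is in `Pol`). -/
def S_Pol : Prop := ∀ (σ : Type) [Fintype σ] [DecidableEq σ],
  (∀ (m : ℕ) (a : ℝ), Pol (σ := σ) m fun _ => a) ∧
  (∀ (m : ℕ) (i : σ), 1 ≤ m → Pol (σ := σ) m fun x => x i) ∧
  (∀ (m m' : ℕ) (f : (σ → ℝ) → ℝ), m ≤ m' → Pol m f → Pol m' f) ∧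
  (∀ (m : ℕ) (f g : (σ → ℝ) → ℝ), Pol m f → Pol m g → Pol m fun x => f x + g x) ∧
  (∀ (m : ℕ) (a : ℝ) (f : (σ → ℝ) → ℝ), Pol m f → Pol m fun x => a * f x) ∧
  (∀ (m m' : ℕ) (f g : (σ → ℝ) → ℝ), Pol m f → Pol m' g → Pol (m + m') fun x => f x * g x)

/-- **Sg** (the type is determined by signs of polynomials).

Induction on `k` (for all `m`, `ι`, `F`).  `k = 0`: `J = Empty`; `Feas` does not depend on `x` (empty sums).
`k + 1`: apply the induction hypothesis to `ι' = ι ⊕ ι × ι` and the derived functions `F' (inl h) j = F h j.succ`,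
`F' (inr p) j = F p.1 0 * F p.2 j.succ - F p.2 0 * F p.1 j.succ`, which are in `Pol (2 * m)` (`S_Pol`), and take
`J = ι ⊕ J'` with `Q (inl h) = F h 0`.  Equal signs of the `F h 0` give the same two index sets in `S_FM`
(for `x` and `x'`).  Cardinality: `n + (n ^ 2 + n + 1) ^ p ≤ ((n + 1) ^ 2) ^ p` for `p = 2 ^ k ≥ 1`
(`a ^ p + n ≤ (a + n) ^ p` for `a ≥ 1`, by induction on `p`). -/
def S_Sg : Prop := S_FM → S_Pol → ∀ (σ : Type) [Fintype σ] [DecidableEq σ] (k m : ℕ)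
  (ι : Type) [Fintype ι] (F : ι → Fin k → (σ → ℝ) → ℝ), (∀ h j, Pol m (F h j)) →
  ∃ (J : Type) (_ : Fintype J) (Q : J → (σ → ℝ) → ℝ),
    Fintype.card J ≤ (Fintype.card ι + 1) ^ (2 ^ k) ∧ (∀ j, Pol (2 ^ k * m) (Q j)) ∧
    ∀ x x' : σ → ℝ, (∀ j, SignType.sign (Q j x) = SignType.sign (Q j x')) → ∀ S : Finset ι,
      (Feas (fun h j => F h j x) S ↔ Feas (fun h j => F h j x') S)

/-- **VC** (number of sign vectors of polynomials).

Let `E = (m + 1) ^ card σ`, `c j` the coefficient vector of `Q j`, `φ x e = ∏ i, x i ^ (e i)`, so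
`Q j x = ∑ e, c j e * φ x e`.  For `x` let `Z x : Finset (J × Bool)` be the set of `(j, true)` with `0 ≤ Q j x` and of
`(j, false)` with `0 ≤ - Q j x`; it determines the sign vector, so it is enough to bound the number of sets
`Z x` (a finite set `𝒜` of finsets, `Finset.univ.filter`/`Set.Finite.toFinset`).  `𝒜` shatters no set `U` with more
than `E` elements: the vectors `± c j`, `(j, b) ∈ U`, are linearly dependent (`E < U.card`,
`exists_nontrivial_relation_of_finrank_lt_card`), `∑ w u • v u = 0`, some `w u ≠ 0`, without restriction some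
`w u < 0` (change the sign); a set `Z x` with `Z x ∩ U = {u | 0 ≤ w u}` would give
`0 = ∑ w u * ⟨v u, φ x⟩ > 0`.  Sauer-Shelah: `Finset.card_le_card_shatterer`,
`Finset.card_shatterer_le_sum_vcDim` (or `Finset.Shatters`), and `∑ i ≤ E, N.choose i ≤ (N + 1) ^ E`. -/
def S_VC : Prop := ∀ (σ : Type) [Fintype σ] [DecidableEq σ] (m : ℕ) (J : Type) [Fintype J]
  (Q : J → (σ → ℝ) → ℝ), (∀ j, Pol m (Q j)) →
  (Set.range fun (x : σ → ℝ) (j : J) => SignType.sign (Q j x)).ncard ≤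
    (2 * Fintype.card J + 1) ^ ((m + 1) ^ Fintype.card σ)

/-- The parameters of `(L, q)`: a `d × k` matrix and a vector. -/
abbrev Sg (d k : ℕ) : Type := Fin d × Fin k ⊕ Fin k

/-- **Cp** (the depth in terms of a system of inequalities).

For `h ∈ A` let `a h` be the normal vector: `hypStmt` in `Hyp.lean` (`y ∈ h ↔ ⟨a, y⟩ = 1`, `y ∈ h.direction ↔ ⟨a, y⟩ = 0`;
see `HypStmt` in `Spec.lean` of the problem).  With `x = (V, y)`:
`F h j x = (1 - ∑ i, ∑ l, a h i * V i l * y l) * ∑ i, a h i * V i j`, in `Pol 3` by `S_Pol`.  For `L`, `q` take a basis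
`v 0, ..., v (k-1)` of `L` (`finBasisOfFinrankEq`), `V i j = v j i`, `q = ∑ y l • v l`.  For `v = ∑ z j • v j`:
`∑ j, F h j x * z j = (1 - ⟨a h, q⟩) * ⟨a h, v⟩`.  The ray from `q` in the direction `v` meets `h` or is parallel to
`h` if and only if `0 ≤ (1 - ⟨a h, q⟩) * ⟨a h, v⟩` (`⟨a, q + t v⟩ = 1` iff `t ⟨a, v⟩ = 1 - ⟨a, q⟩`).  So
`1 ≤ RD S q L` iff for all `v ∈ L`, `v ≠ 0`, some `h ∈ S` has `0 ≤ ...`, i.e. iff there is no `z` with all values
`< 0` (for `v = 0` the value is `0`; `S = ∅`: `k ≥ 1` gives a `v ≠ 0` and the depth is `0`, and `Feas` holds).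
`1 ≤ RD`: the set in `RD` is not empty (`k ≥ 1`), `Nat.sInf_mem`, `Nat.sInf_le`. -/
def S_Cp : Prop := S_Pol → ∀ (d k : ℕ) (A : Finset (Aff d)), 1 ≤ k → IsArr A →
  ∃ F : {h // h ∈ A} → Fin k → (Sg d k → ℝ) → ℝ, (∀ h j, Pol 3 (F h j)) ∧
    ∀ (L : Sub d) (q : E d), dim L = k → In L q → ∃ x : Sg d k → ℝ, ∀ S : Finset {h // h ∈ A},
      (1 ≤ RD (S.map (Function.Embedding.subtype _)) q L ↔ ¬ Feas (fun h j => F h j x) S)

/-- **Ty** (the number of types).

`F` from `S_Cp`, `Q` from `S_Sg` (`card J ≤ (n + 1) ^ (2 ^ k)`, exponents `2 ^ k * 3`), `S_VC`.  For every sign vector in the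
(finite) range choose one `x` and take the family of the `S ⊆ A` (as sets of hyperplanes) with `¬ Feas`.
Number: `(2 * (n + 1) ^ p + 1) ^ E ≤ (n + 2) ^ ((p + 1) * E)`, `p = 2 ^ k`, `E = (2 ^ k * 3 + 1) ^ (d * k + k)`. -/
def S_Ty : Prop := S_FM → S_Pol → S_Sg → S_VC → S_Cp → ∀ d k : ℕ, 1 ≤ k → ∃ C : ℕ,
  ∀ A : Finset (Aff d), IsArr A → ∃ F : Finset (Finset (Finset (Aff d))),
    F.card ≤ (A.card + 2) ^ C ∧
    ∀ (L : Sub d) (q : E d), dim L = k → In L q → ∃ 𝒮 ∈ F, ∀ S, S ⊆ A → (1 ≤ RD S q L ↔ S ∈ 𝒮)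

/-! ### The theorem -/

/-- **Num** (numbers).

Let `X = n ^ (1/5 : ℝ)`; `r ≥ 2` and the inequality give `C X ^ 4 ≤ X ^ 5`, so `X ≥ C` is large.
`log (4 (n + 2) ^ C0) ≤ log 4 + C0 * log (n + 2)`, and `log` is at most a constant times `X ^ (1/2)` or so; choose
`t = X ^ 3` (`4 n log(..) ≤ X ^ 6` for large `X`; `t ≤ 2 n`), `2 ^ a` with `X ^ 4 ≤ 2 ^ a ≤ 2 X ^ 4` (`a = Nat.clog`-like),
`T = ⌊n / ((k + 1) 2 ^ a + t)⌋₊ ≥ 1`.  With `b = 2 ^ a`: `T ≥ n / ((k + 1) b + t) - 1`, so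
`T (b - t) ≥ (n / (k + 1)) * (1 - 2 t / b) - b ≥ n / (k + 1) - 2 X ^ 5 * X ^ 3 / X ^ 4 - 2 X ^ 4 = n / (k + 1) - 4 X ^ 4`. -/
def S_Num : Prop := ∀ k C0 : ℕ, ∃ C : ℝ, 0 < C ∧ ∀ n r : ℕ, 2 ≤ r →
  (r : ℝ) ≤ n / (k + 1) - C * (n : ℝ) ^ (4 / 5 : ℝ) →
  ∃ (T a : ℕ) (t : ℝ), 0 < T ∧ 0 ≤ t ∧ t ≤ 2 * n ∧
    4 * n * (Real.log 4 + C0 * Real.log (n + 2)) ≤ t ^ 2 ∧
    (T : ℝ) * (((k + 1) * 2 ^ a : ℕ) + t) ≤ n ∧ (r : ℝ) ≤ T * ((2 ^ a : ℕ) - t)

/-- **Per** (one family).  Uses the key lemma and the number of types.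

`r = 1`: take `B` = one member (`A` is not empty), `a = 0`: `1 ≤ nu cap B → 1 ≤ nu cap A` (monotone).
`r ≥ 2`: numbers from `S_Num` with `C0` of `S_Ty`, `S_Key` with `K` = the set of all `fun S => 1 ≤ RD S q L`
(`dim L = k`, `q ∈ L`; `¬ 1 ≤ RD ∅ q L`: some `v ∈ L` is not `0` because `k ≥ 1`, the filter is empty), `s = (k + 1) 2 ^ a`,
`b = 2 ^ a`; take a subset of the `B` of `S_Key` with exactly `(k + 1) (2 ^ a - 1) + 1` members
(`Finset.exists_subset_card_eq`, `S_Nu` (2)).  `r ≤ T (b - t) ≤ nu cap A` (cast). -/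
def S_Per : Prop := S_Mc → S_Nu → S_Key → S_Ty → S_FM → S_Pol → S_Sg → S_VC → S_Cp → S_Num →
  ∀ d k : ℕ, 1 ≤ k → ∃ C : ℝ, 0 < C ∧ ∀ (A : Finset (Aff d)) (r : ℕ), IsArr A → 1 ≤ A.card →
    (r = 1 ∨ 2 ≤ r ∧ (r : ℝ) ≤ A.card / (k + 1) - C * (A.card : ℝ) ^ (4 / 5 : ℝ)) →
    ∃ (B : Finset (Aff d)) (a : ℕ), B ⊆ A ∧ B.card = (k + 1) * (2 ^ a - 1) + 1 ∧
      ∀ (L : Sub d) (q : E d), dim L = k → In L q →
        Pk (fun S => 1 ≤ RD S q L) (2 ^ a) B → Pk (fun S => 1 ≤ RD S q L) r A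

/-- The theorem. -/
def S_Main : Prop := ∀ d k : ℕ, 1 ≤ k → k ≤ d → ∃ C : ℝ, 0 < C ∧
  ∀ (r : Fin (d - k + 1) → ℕ) (A : Fin (d - k + 1) → Finset (Aff d)),
    (∀ i, IsArr (A i)) → PP.GenPosK A → (∀ i, 1 ≤ (A i).card) → (∀ i, 1 ≤ r i) →
    (∀ i, r i = 1 ∨ (r i : ℝ) ≤ (A i).card / (k + 1) - C * ((A i).card : ℝ) ^ (4 / 5 : ℝ)) →
    PP.ConclK k r A

/-- **Asm** (assembly).  Uses the theorem for powers of two.

`B i`, `a i` from `S_Per`; the `B i` satisfy `GenPosK` (hereditary), `IsArr`; `PP.S_Final` gives `L`, `q`, splittings of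
the `B i` into `2 ^ (a i)` parts, hence `Pk`; `S_Per` gives `Pk cap (r i) (A i)`.  From `Pk cap r A`, `1 ≤ r`, to
`Splits r A q L`: put all members of `A` which are in no `P j` into `P 0`; the depth is monotone
(`1 ≤ RD S q L`, `S ⊆ S'` give `1 ≤ RD S' q L`: the set in `RD` is not empty as `1 ≤ RD S` (`sInf ∅ = 0`), and every
filter is larger). -/
def S_Asm : Prop := S_Mc → S_Nu → S_Key → S_Ty → S_FM → S_Pol → S_Sg → S_VC → S_Cp → S_Num → S_Per →
  PP.S_Final → S_Main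

/-- **Cor** (the sizes of Q1: at least `r - C r ^ (4/5)` parts).

From `S_Main` with `C`: for `|A i| = (k + 1) (r i - 1) + 1 =: n`, `n ≤ (k + 1) r i`, take
`r' i = max 1 ⌊n / (k + 1) - C * n ^ (4 / 5)⌋₊`; then `r' i ≥ r i - 1 - C ((k + 1) r i) ^ (4 / 5) - 1`, and `1 ≤ r i ^ (4 / 5)`;
also `r' i ≤ r i`. -/
def S_Cor : Prop := S_Main → ∀ d k : ℕ, 1 ≤ k → k ≤ d → ∃ C : ℝ, 0 < C ∧
  ∀ (r : Fin (d - k + 1) → ℕ) (A : Fin (d - k + 1) → Finset (Aff d)),
    (∀ i, 1 ≤ r i) → (∀ i, IsArr (A i)) → (∀ i, (A i).card = (k + 1) * (r i - 1) + 1) →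
    PP.GenPosK A →
    ∃ r' : Fin (d - k + 1) → ℕ, (∀ i, (r i : ℝ) - C * (r i : ℝ) ^ (4 / 5 : ℝ) ≤ r' i) ∧
      PP.ConclK k r' A

end Pool.Agent.Lib.MP_c05127_co.AS
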