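import Pool.Agent.Lib.MP_c05127_co.AS.Spec

/-!
# PROJECT AS (MP_c05127_co), part B: few parallel members instead of general position, powers of two exactly

RULES: as in `AS/Spec.lean`; modules import `AS/SpecB.lean` (`Nd` also `Pool.Agent.Lib.MP_c05127_co.Hyp`).
-/

set_option autoImplicit false

open Finset

namespace Pool.Agent.Lib.MP_c05127_co.AS

open Pool.Agent.Lib.MP_c05127_co.Brief

/-- **Key2** (the key lemma with a family `G` of sets which are met in the right proportion).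

As `S_Key` (copy `AS/Key.lean`), with a third event: for `S ∈ G`, `S ⊆ A` the function `f ω = |B ω 0 ∩ S|` has bounded
differences `1` and mean `|S| / T`, so at most `exp (-(t ^ 2 / (4 n))) ≤ 1 / (4 M)` of the `ω` have
`|S| / T + t < |B ω 0 ∩ S|`, `M = F.card + G.card`.  The three events have together at most
`(1 + F.card + G.card) / (4 M) ≤ 1 / 2` of all `ω`.  (`A = ∅`: `B = ∅`; `M = 0`: `B = A`.) -/
def S_Key2 : Prop := S_Mc → S_Nu → ∀ (α : Type) [DecidableEq α] (A : Finset α)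
  (K : Set (Finset α → Prop)) (F : Finset (Finset (Finset α))) (G : Finset (Finset α)) (T b s : ℕ)
  (t : ℝ),
  (∀ cap ∈ K, ¬ cap ∅) →
  (∀ cap ∈ K, ∃ 𝒮 ∈ F, ∀ S, S ⊆ A → (cap S ↔ S ∈ 𝒮)) →
  0 < T → 0 ≤ t → t ≤ 2 * A.card → 4 * A.card * Real.log (4 * (F.card + G.card)) ≤ t ^ 2 →
  (T : ℝ) * (s + t) ≤ A.card →
  ∃ B, B ⊆ A ∧ s ≤ B.card ∧ (∀ cap ∈ K, b ≤ nu cap B → (T : ℝ) * (b - t) ≤ nu cap A) ∧
    ∀ S ∈ G, S ⊆ A → ((B ∩ S).card : ℝ) ≤ S.card / T + t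

open Classical in
/-- **Nd** (number of sets of parallel members).

Normal vectors `a h` (`hypStmt` in `Hyp.lean`): `u ∈ dir h` iff `⟨a h, u⟩ = 0`.  The functions
`Q h u = ∑ i, a h i * u i`, `h ∈ A` (index type `{h // h ∈ A}`, `σ = Fin d`), are in `Pol 1`; `S_VC`: at most
`(2 n + 1) ^ (2 ^ d)` sign vectors, and `A.filter (u ∈ dir h)` is determined by the sign vector.
`(2 n + 1) ≤ (n + 2) ^ 2`, so `C = 2 * 2 ^ d`. -/
def S_Nd : Prop := S_Pol → S_VC → ∀ d : ℕ, ∃ C : ℕ, ∀ A : Finset (Aff d), IsArr A →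
  ∃ G : Finset (Finset (Aff d)), G.card ≤ (A.card + 2) ^ C ∧
    ∀ u : E d, (A.filter fun h => In (dir h) u) ∈ G

/-- **Num2** (numbers).  As `S_Num` (copy `AS/Num.lean`), with `log 8` and the last inequality: with
`X = n ^ (1/5)`, `b = 2 ^ a ∈ [X ^ 4, 2 X ^ 4]`, `t = X ^ 3`, `T ≥ n / ((k + 1) b + t) - 1` and `T ≥ X / (4 k + 8)`:
`n / ((k + 1) T) ≤ (b + t) (1 + 1 / T)`, so the left side is at most
`(1 - δ) (b + t) (1 + 1 / T) + t ≤ b - δ b + 2 t + 2 b / T < b` if `X > (8 k + 20) / δ`. -/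
def S_Num2 : Prop := ∀ (k C0 : ℕ) (δ : ℝ), 0 < δ → δ ≤ 1 → ∃ C : ℝ, 0 < C ∧ ∀ n r : ℕ, 1 ≤ r →
  (r : ℝ) ≤ n / (k + 1) - C * (n : ℝ) ^ (4 / 5 : ℝ) →
  ∃ (T a : ℕ) (t : ℝ), 0 < T ∧ 0 ≤ t ∧ t ≤ 2 * n ∧
    4 * n * (Real.log 8 + C0 * Real.log (n + 2)) ≤ t ^ 2 ∧
    (T : ℝ) * (((k + 1) * 2 ^ a : ℕ) + t) ≤ n ∧ (r : ℝ) ≤ T * ((2 ^ a : ℕ) - t) ∧
    (1 - δ) * (n / (k + 1)) / T + t < (2 ^ a : ℕ)

open Classical in
/-- **Per2** (one family).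

Powers of two: `B ⊆ A` with `(k + 1) (r - 1) + 1` members, `a = e`; the filter of `B` is contained in the filter
of `A`.  Otherwise as `S_Per` with `C0 = max` of the exponents of `S_Ty` and `S_Nd`
(`4 (F.card + G.card) ≤ 8 (n + 2) ^ C0`), `S_Key2` with `G` = the sets of `S_Nd`; for `u` with
`|A(u)| < (1 - δ) r ≤ (1 - δ) n / (k + 1)`: `B.filter = B ∩ A.filter` has at most
`|A(u)| / T + t < 2 ^ a` members; then pass to a subset of `B` with exactly `(k + 1) (2 ^ a - 1) + 1` members. -/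
def S_Per2 : Prop := S_Mc → S_Nu → S_Key2 → S_Ty → S_FM → S_Pol → S_Sg → S_VC → S_Cp → S_Nd → S_Num2 →
  ∀ d k : ℕ, 1 ≤ k → ∀ δ : ℝ, 0 < δ → δ ≤ 1 → ∃ C : ℝ, 0 < C ∧
  ∀ (A : Finset (Aff d)) (r : ℕ), IsArr A →
    ((∃ e, r = 2 ^ e ∧ (k + 1) * (r - 1) + 1 ≤ A.card) ∨
      (1 ≤ r ∧ (r : ℝ) ≤ A.card / (k + 1) - C * (A.card : ℝ) ^ (4 / 5 : ℝ))) →
    ∃ (B : Finset (Aff d)) (a : ℕ), B ⊆ A ∧ B.card = (k + 1) * (2 ^ a - 1) + 1 ∧
      (∀ (L : Sub d) (q : E d), dim L = k → In L q →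
        Pk (fun S => 1 ≤ RD S q L) (2 ^ a) B → Pk (fun S => 1 ≤ RD S q L) r A) ∧
      ∀ u : E d, ((A.filter fun h => In (dir h) u).card : ℝ) < (1 - δ) * r →
        (B.filter fun h => In (dir h) u).card < 2 ^ a

open Classical in
/-- The theorem. -/
def S_Main2 : Prop := ∀ d k : ℕ, 1 ≤ k → k ≤ d → ∀ δ : ℝ, 0 < δ → ∃ C : ℝ, 0 < C ∧
  ∀ (r : Fin (d - k + 1) → ℕ) (A : Fin (d - k + 1) → Finset (Aff d)),
    (∀ i, IsArr (A i)) →
    (∀ i, (∃ e, r i = 2 ^ e ∧ (k + 1) * (r i - 1) + 1 ≤ (A i).card) ∨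
      (1 ≤ r i ∧ (r i : ℝ) ≤ (A i).card / (k + 1) - C * ((A i).card : ℝ) ^ (4 / 5 : ℝ))) →
    (PP.GenPosK A ∨
      ∀ u : E d, u ≠ 0 → ∃ i, (((A i).filter fun h => In (dir h) u).card : ℝ) < (1 - δ) * r i) →
    PP.ConclK k r A

/-- **Asm2** (assembly).  As `S_Asm` (copy `AS/Asm.lean`), with `S_Per2` (for `min δ 1`; for `δ > 1` the second
alternative is impossible, because `d ≥ 1` and the number of elements is not negative) and, in the second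
case, `PP.NoDirK (fun i => 2 ^ a i) B`. -/
def S_Asm2 : Prop := S_Mc → S_Nu → S_Key2 → S_Ty → S_FM → S_Pol → S_Sg → S_VC → S_Cp → S_Nd → S_Num2 →
  S_Per2 → PP.S_Final → S_Main2

end Pool.Agent.Lib.MP_c05127_co.AS
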